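import Pool.Agent.Y959.Smp.Core
import Pool.Agent.Y959.Her.Lq

set_option autoImplicit false

/-!
# `ℓ^q` norms from the sampling theorem
-/

namespace Pool.Agent.Y959.Smp

open Finset Pool.Agent.TH705.DL Pool.Agent.Y959.Her

open Classical in
/-- dyadic summation of `q`-th powers -/
theorem dyadic_q {ι : Type*} (W : Finset ι) (d : ι → ℝ) (V0 A0 q : ℝ) (hV0 : 0 < V0) (hq : 0 < q)
    (J : ℕ) (hmax : ∀ i ∈ W, d i ≤ 2 ^ J * V0)
    (h : ∀ V, V0 ≤ V → V ^ q * ((W.filter (fun i => V ≤ d i)).card : ℝ) ≤ A0) :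
    ∑ i ∈ W.filter (fun i => V0 ≤ d i), d i ^ q ≤ (2 : ℝ) ^ q * A0 * (J + 1) := by
  have h1 : ∀ i ∈ W.filter (fun i => V0 ≤ d i), d i ^ q ≤
      ∑ j ∈ range (J + 1), if 2 ^ j * V0 ≤ d i then (2 : ℝ) ^ q * (2 ^ j * V0) ^ q else 0 := by
    intro i hi
    rw [mem_filter] at hi
    have hd0 : 0 ≤ d i := hV0.le.trans hi.2
    set S := (range (J + 1)).filter (fun j => 2 ^ j * V0 ≤ d i) with hS
    have h0 : 0 ∈ S := by
      rw [hS, mem_filter]
      exact ⟨mem_range.2 (by omega), by simpa using hi.2⟩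
    set j := S.max' ⟨0, h0⟩ with hj
    have hjS : j ∈ S := max'_mem _ _
    rw [hS, mem_filter, mem_range] at hjS
    have h2 : d i ≤ 2 * (2 ^ j * V0) := by
      by_contra hc
      push Not at hc
      rcases Nat.lt_or_ge (j + 1) (J + 1) with hlt | hge
      · have h3 : j + 1 ∈ S := by
          rw [hS, mem_filter, mem_range]
          refine ⟨hlt, ?_⟩
          rw [pow_succ]
          linarith
        have := le_max' S (j + 1) h3
        omega
      · have hjJ : j = J := by omega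
        have := hmax i hi.1
        rw [hjJ] at hc
        have : 0 < 2 ^ J * V0 := by positivity
        linarith
    calc d i ^ q ≤ (2 * (2 ^ j * V0)) ^ q := Real.rpow_le_rpow hd0 h2 hq.le
      _ = if 2 ^ j * V0 ≤ d i then (2 : ℝ) ^ q * (2 ^ j * V0) ^ q else 0 := by
          rw [if_pos hjS.2, Real.mul_rpow (by norm_num) (by positivity)]
      _ ≤ _ := single_le_sum (f := fun j => if 2 ^ j * V0 ≤ d i then (2 : ℝ) ^ q * (2 ^ j * V0) ^ q else 0)
          (fun j _ => by split_ifs <;> positivity) (mem_range.2 hjS.1)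
  refine (sum_le_sum h1).trans ?_
  rw [sum_comm]
  have h2q : (0 : ℝ) ≤ (2 : ℝ) ^ q := by positivity
  calc ∑ j ∈ range (J + 1), ∑ i ∈ W.filter (fun i => V0 ≤ d i),
        (if 2 ^ j * V0 ≤ d i then (2 : ℝ) ^ q * (2 ^ j * V0) ^ q else 0)
      ≤ ∑ j ∈ range (J + 1), (2 : ℝ) ^ q * A0 := by
        apply sum_le_sum
        intro j _
        rw [← sum_filter, sum_const, nsmul_eq_mul]
        have h2 : (((W.filter (fun i => V0 ≤ d i)).filter (fun i => 2 ^ j * V0 ≤ d i)).card : ℝ) ≤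
            ((W.filter (fun i => 2 ^ j * V0 ≤ d i)).card : ℝ) := by
          exact_mod_cast card_le_card (filter_subset_filter _ (filter_subset _ _))
        have h3 := h (2 ^ j * V0) (by
          have : (1 : ℝ) ≤ 2 ^ j := one_le_pow₀ (by norm_num)
          nlinarith)
        have h4 : (0 : ℝ) ≤ (2 ^ j * V0) ^ q := by positivity
        calc (((W.filter (fun i => V0 ≤ d i)).filter (fun i => 2 ^ j * V0 ≤ d i)).card : ℝ) *
              ((2 : ℝ) ^ q * (2 ^ j * V0) ^ q)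
            ≤ ((W.filter (fun i => 2 ^ j * V0 ≤ d i)).card : ℝ) * ((2 : ℝ) ^ q * (2 ^ j * V0) ^ q) :=
              mul_le_mul_of_nonneg_right h2 (by positivity)
          _ = (2 : ℝ) ^ q * ((2 ^ j * V0) ^ q * ((W.filter (fun i => 2 ^ j * V0 ≤ d i)).card : ℝ)) := by
              ring
          _ ≤ (2 : ℝ) ^ q * A0 := mul_le_mul_of_nonneg_left h3 h2q
    _ = (2 : ℝ) ^ q * A0 * (J + 1) := by
        rw [sum_const, card_range, nsmul_eq_mul]
        push_cast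
        ring

open Classical in
/-- from the level sets to the `ℓ^q` norm -/
theorem lq_general {ι : Type*} (W : Finset ι) (d : ι → ℝ) (hd0 : ∀ i, 0 ≤ d i) (N : ℕ) (hN : 1 ≤ N)
    (q ε C2 R : ℝ) (hq : 2 ≤ q) (hε : 0 < ε) (hC2 : 1 ≤ C2) (hR : (W.card : ℝ) ≤ R)
    (hdmax : ∀ i, d i ≤ 2 * N)
    (h : ∀ V, Real.sqrt N ≤ V → V ≤ 2 * N → V ^ q * ((W.filter (fun i => V ≤ d i)).card : ℝ) ≤
      C2 * (N : ℝ) ^ ε * ((2 * (N : ℝ)) ^ q + R * (N : ℝ) ^ (q / 2))) :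
    ∑ i ∈ W, d i ^ q ≤ (4 * (1 + (3 + 2 / ε) * C2)) ^ q * (N : ℝ) ^ (3 * ε) *
      ((N : ℝ) ^ q + R * (N : ℝ) ^ (q / 2)) := by
  have hN1 : (1 : ℝ) ≤ N := by exact_mod_cast hN
  have hN0 : (0 : ℝ) < N := by linarith
  have hq0 : 0 < q := by linarith
  have hR0 : 0 ≤ R := le_trans (Nat.cast_nonneg _) hR
  have hV0 : 0 < Real.sqrt N := Real.sqrt_pos.2 hN0
  have hV1 : 1 ≤ Real.sqrt N := by rw [Real.one_le_sqrt]; exact hN1
  have hNε : 1 ≤ (N : ℝ) ^ ε := Real.one_le_rpow hN1 hε.le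
  have hN3 : 1 ≤ (N : ℝ) ^ (3 * ε) := Real.one_le_rpow hN1 (by positivity)
  set J : ℕ := Nat.log 2 (2 * N) + 1 with hJ
  have hJmax : ∀ i ∈ W, d i ≤ 2 ^ J * Real.sqrt N := by
    intro i _
    have h1 : 2 * N < 2 ^ J := Nat.lt_pow_succ_log_self (by norm_num) _
    have h2 : (2 * N : ℝ) ≤ 2 ^ J := by exact_mod_cast h1.le
    have h3 : (0 : ℝ) < 2 ^ J := by positivity
    calc d i ≤ 2 * N := hdmax i
      _ ≤ 2 ^ J := h2
      _ ≤ 2 ^ J * Real.sqrt N := by nlinarith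
  have hJ1 : (J : ℝ) + 1 ≤ (3 + 2 / ε) * (N : ℝ) ^ (2 * ε) := by
    have := log_nat ε hε N hN
    rw [hJ]
    push_cast
    linarith
  have hall : ∀ V, Real.sqrt N ≤ V → V ^ q * ((W.filter (fun i => V ≤ d i)).card : ℝ) ≤
      C2 * (N : ℝ) ^ ε * ((2 * (N : ℝ)) ^ q + R * (N : ℝ) ^ (q / 2)) := by
    intro V hV
    rcases le_or_gt V (2 * N) with h1 | h1
    · exact h V hV h1
    · have : W.filter (fun i => V ≤ d i) = ∅ := by
        rw [filter_eq_empty_iff]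
        intro i _
        push Not
        exact lt_of_le_of_lt (hdmax i) h1
      rw [this]
      simp only [card_empty, Nat.cast_zero, mul_zero]
      positivity
  have hdy := dyadic_q W d (Real.sqrt N) _ q hV0 hq0 J hJmax hall
  have hsq : Real.sqrt N ^ q = (N : ℝ) ^ (q / 2) := by
    rw [Real.sqrt_eq_rpow, ← Real.rpow_mul hN0.le]
    congr 1
    ring
  have hsmall : ∑ i ∈ W.filter (fun i => ¬ Real.sqrt N ≤ d i), d i ^ q ≤ R * (N : ℝ) ^ (q / 2) := by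
    calc ∑ i ∈ W.filter (fun i => ¬ Real.sqrt N ≤ d i), d i ^ q
        ≤ ∑ i ∈ W.filter (fun i => ¬ Real.sqrt N ≤ d i), (N : ℝ) ^ (q / 2) := by
          apply sum_le_sum
          intro i hi
          have h1 := (mem_filter.1 hi).2
          push Not at h1
          rw [← hsq]
          exact Real.rpow_le_rpow (hd0 i) h1.le hq0.le
      _ = ((W.filter (fun i => ¬ Real.sqrt N ≤ d i)).card : ℝ) * (N : ℝ) ^ (q / 2) := by
          rw [sum_const, nsmul_eq_mul]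
      _ ≤ R * (N : ℝ) ^ (q / 2) := by
          apply mul_le_mul_of_nonneg_right _ (by positivity)
          refine le_trans ?_ hR
          exact_mod_cast card_filter_le _ _
  rw [← sum_filter_add_sum_filter_not W (fun i => Real.sqrt N ≤ d i) (fun i => d i ^ q)]
  have h2q1 : (1 : ℝ) ≤ (2 : ℝ) ^ q := Real.one_le_rpow (by norm_num) hq0.le
  have h4q : (4 : ℝ) ^ q = (2 : ℝ) ^ q * (2 : ℝ) ^ q := by
    rw [← Real.mul_rpow (by norm_num) (by norm_num)]
    norm_num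
  have hX1 : 1 ≤ 1 + (3 + 2 / ε) * C2 := by
    have : 0 < 2 / ε := by positivity
    nlinarith
  obtain ⟨X, hX⟩ : ∃ X, X = 1 + (3 + 2 / ε) * C2 := ⟨_, rfl⟩
  rw [← hX] at hX1 ⊢
  have hXq : X ≤ X ^ q := by
    calc X = X ^ (1 : ℝ) := (Real.rpow_one X).symm
      _ ≤ X ^ q := Real.rpow_le_rpow_of_exponent_le hX1 (by linarith)
  have h4X : (4 * X) ^ q = (4 : ℝ) ^ q * X ^ q := Real.mul_rpow (by norm_num) (by linarith)
  obtain ⟨P, hP⟩ : ∃ P, P = (N : ℝ) ^ q + R * (N : ℝ) ^ (q / 2) := ⟨_, rfl⟩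
  have hP0 : 0 ≤ P := by rw [hP]; positivity
  have h2P : (2 * (N : ℝ)) ^ q + R * (N : ℝ) ^ (q / 2) ≤ (2 : ℝ) ^ q * P := by
    rw [hP, Real.mul_rpow (by norm_num) hN0.le, mul_add]
    have : 0 ≤ R * (N : ℝ) ^ (q / 2) := by positivity
    nlinarith
  rw [← hP]
  have h3ε : (N : ℝ) ^ ε * (N : ℝ) ^ (2 * ε) = (N : ℝ) ^ (3 * ε) := by
    rw [← Real.rpow_add hN0]
    congr 1
    ring
  have hbig : ∑ i ∈ W.filter (fun i => Real.sqrt N ≤ d i), d i ^ q ≤
      (4 : ℝ) ^ q * ((3 + 2 / ε) * C2) * (N : ℝ) ^ (3 * ε) * P := by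
    refine hdy.trans ?_
    have hε2 : 0 < 2 / ε := by positivity
    calc (2 : ℝ) ^ q * (C2 * (N : ℝ) ^ ε * ((2 * (N : ℝ)) ^ q + R * (N : ℝ) ^ (q / 2))) * ((J : ℝ) + 1)
        ≤ (2 : ℝ) ^ q * (C2 * (N : ℝ) ^ ε * ((2 : ℝ) ^ q * P)) * ((3 + 2 / ε) * (N : ℝ) ^ (2 * ε)) := by
          apply mul_le_mul _ hJ1 (by positivity) (by positivity)
          exact mul_le_mul_of_nonneg_left (mul_le_mul_of_nonneg_left h2P (by positivity)) (by positivity)
      _ = ((2 : ℝ) ^ q * (2 : ℝ) ^ q) * ((3 + 2 / ε) * C2) * ((N : ℝ) ^ ε * (N : ℝ) ^ (2 * ε)) * P := by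
          ring
      _ = _ := by rw [← h4q, h3ε]
  have hsm2 : R * (N : ℝ) ^ (q / 2) ≤ (4 : ℝ) ^ q * 1 * (N : ℝ) ^ (3 * ε) * P := by
    have h1 : R * (N : ℝ) ^ (q / 2) ≤ P := by
      rw [hP]
      have : 0 ≤ (N : ℝ) ^ q := by positivity
      linarith
    have h2 : 1 ≤ (4 : ℝ) ^ q * 1 * (N : ℝ) ^ (3 * ε) := by
      have h3 : 1 ≤ (4 : ℝ) ^ q := Real.one_le_rpow (by norm_num) hq0.le
      rw [mul_one]
      exact one_le_mul_of_one_le_of_one_le h3 hN3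
    nlinarith
  have h4q0 : (0 : ℝ) < (4 : ℝ) ^ q := by positivity
  calc _ ≤ (4 : ℝ) ^ q * ((3 + 2 / ε) * C2) * (N : ℝ) ^ (3 * ε) * P +
        (4 : ℝ) ^ q * 1 * (N : ℝ) ^ (3 * ε) * P := add_le_add hbig (hsmall.trans hsm2)
    _ = ((4 : ℝ) ^ q * X) * (N : ℝ) ^ (3 * ε) * P := by rw [hX]; ring
    _ ≤ ((4 : ℝ) ^ q * X ^ q) * (N : ℝ) ^ (3 * ε) * P := by
        apply mul_le_mul_of_nonneg_right _ hP0
        apply mul_le_mul_of_nonneg_right _ (by linarith)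
        exact mul_le_mul_of_nonneg_left hXq h4q0.le
    _ = _ := by rw [h4X]

/-- the `ℓ^q` bounds for polynomials on `[N, 2N]` with coefficients bounded by `1` -/
theorem lq_of_lvk (k : ℕ) (hk : 1 ≤ k) (ε C : ℝ) (hε : 0 < ε) (hC : 0 < C) :
    ∃ C' : ℝ, 0 < C' ∧ ∀ (N M T : ℕ) (t : Fin M → ℝ), 1 ≤ N → (M : ℝ) ≤ (N : ℝ) ^ k → N ^ k ≤ T →
      LVk (Icc N (2 * N)) (2 * N) T k C ε t → ∀ b : ℕ → ℂ, (∀ n ∈ Icc N (2 * N), ‖b n‖ ≤ 1) →
      ∀ (W : Finset (Fin M)) (q : ℝ), 2 ≤ q →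
      (q ≤ 2 * k → ∑ i ∈ W, ‖∑ n ∈ Icc N (2 * N), b n * ph (t i) n‖ ^ q ≤
        C' ^ q * (N : ℝ) ^ (3 * ε) * ((N : ℝ) ^ q +
          ((W.card : ℝ) ^ (1 - q / (2 * k)) * (M : ℝ) ^ (q / (2 * k))) * (N : ℝ) ^ (q / 2))) ∧
      ∑ i ∈ W, ‖∑ n ∈ Icc N (2 * N), b n * ph (t i) n‖ ^ q ≤
        C' ^ q * (N : ℝ) ^ (3 * ε) * ((N : ℝ) ^ q + M * (N : ℝ) ^ (q / 2)) := by
  classical
  obtain ⟨C1, hC1⟩ : ∃ C1 : ℝ, C1 = C * (2 : ℝ) ^ ε * (1 + 2 ^ k) * 2 ^ k := ⟨_, rfl⟩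
  have hC1p : 0 < C1 := by rw [hC1]; positivity
  obtain ⟨C2, hC2⟩ : ∃ C2 : ℝ, C2 = 1 + C + C1 := ⟨_, rfl⟩
  have hC21 : 1 ≤ C2 := by rw [hC2]; linarith
  have hε2 : 0 < 2 / ε := by positivity
  refine ⟨4 * (1 + (3 + 2 / ε) * C2), by positivity, ?_⟩
  intro N M T t hN hM hT hL b hb W q hq
  have hN1 : (1 : ℝ) ≤ N := by exact_mod_cast hN
  have hN0 : (0 : ℝ) < N := by linarith
  have hq0 : 0 < q := by linarith
  have hk0 : (0 : ℝ) < k := by exact_mod_cast hk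
  have hNk : 1 ≤ N ^ k := Nat.one_le_pow _ _ hN
  have hT0 : (0 : ℝ) < T := by exact_mod_cast lt_of_lt_of_le hNk hT
  have hTk : (N : ℝ) ^ k ≤ T := by exact_mod_cast hT
  have hNε : 1 ≤ (N : ℝ) ^ ε := Real.one_le_rpow hN1 hε.le
  have hcard : ((Icc N (2 * N)).card : ℝ) ≤ 2 * N := by
    rw [Nat.card_Icc]
    have : 2 * N + 1 - N ≤ 2 * N := by omega
    exact_mod_cast this
  have hS : ∑ n ∈ Icc N (2 * N), ‖b n‖ ^ 2 ≤ 2 * N := by
    calc ∑ n ∈ Icc N (2 * N), ‖b n‖ ^ 2 ≤ ∑ n ∈ Icc N (2 * N), (1 : ℝ) :=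
          sum_le_sum fun n hn => pow_le_one₀ (norm_nonneg _) (hb n hn)
      _ = ((Icc N (2 * N)).card : ℝ) := by simp
      _ ≤ 2 * N := hcard
  have hS0 : 0 ≤ ∑ n ∈ Icc N (2 * N), ‖b n‖ ^ 2 := sum_nonneg fun _ _ => sq_nonneg _
  obtain ⟨d, hd⟩ : ∃ d : Fin M → ℝ, d = fun i => ‖∑ n ∈ Icc N (2 * N), b n * ph (t i) n‖ := ⟨_, rfl⟩
  have hd' : ∀ i, ‖∑ n ∈ Icc N (2 * N), b n * ph (t i) n‖ = d i := fun i => by rw [hd]
  have hd0 : ∀ i, 0 ≤ d i := fun i => by rw [hd]; exact norm_nonneg _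
  have hdmax : ∀ i, d i ≤ 2 * N := by
    intro i
    rw [← hd']
    refine (norm_sum_le _ _).trans ?_
    calc ∑ n ∈ Icc N (2 * N), ‖b n * ph (t i) n‖ ≤ ∑ n ∈ Icc N (2 * N), (1 : ℝ) := by
          apply sum_le_sum
          intro n hn
          rw [norm_mul, ph_norm, mul_one]
          exact hb n hn
      _ = ((Icc N (2 * N)).card : ℝ) := by simp
      _ ≤ 2 * N := hcard
  have hWM : (W.card : ℝ) ≤ M := by
    have := card_le_univ W
    rw [Fintype.card_fin] at this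
    exact_mod_cast this
  -- the level sets
  have hlv : ∀ V, 0 < V → V ^ 2 * ((W.filter (fun i => V ≤ d i)).card : ℝ) ≤ C * (2 * N) ^ 2 ∨
      V ^ (2 * k) * ((W.filter (fun i => V ≤ d i)).card : ℝ) ≤ C1 * (N : ℝ) ^ ε * M * (N : ℝ) ^ k := by
    intro V hV
    rcases hL b V (W.filter (fun i => V ≤ d i)) hV (fun i hi => by
      rw [hd']; exact (mem_filter.1 hi).2) with h1 | h1
    · left
      refine h1.trans ?_
      calc C * ((Icc N (2 * N)).card : ℝ) * ∑ n ∈ Icc N (2 * N), ‖b n‖ ^ 2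
          ≤ C * (2 * N) * (2 * N) := by
            apply mul_le_mul _ hS hS0 (by positivity)
            exact mul_le_mul_of_nonneg_left hcard hC.le
        _ = C * (2 * N) ^ 2 := by ring
    · right
      have h2 := h1 k (mem_Icc.2 ⟨hk, le_rfl⟩)
      rw [Fintype.card_fin] at h2
      refine h2.trans ?_
      push_cast
      have h3 : 1 + (2 * (N : ℝ)) ^ k / T ≤ 1 + 2 ^ k := by
        have : (2 * (N : ℝ)) ^ k / T ≤ 2 ^ k := by
          rw [div_le_iff₀ hT0, mul_pow]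
          exact mul_le_mul_of_nonneg_left hTk (by positivity)
        linarith
      have h4 : (∑ n ∈ Icc N (2 * N), ‖b n‖ ^ 2) ^ k ≤ (2 * (N : ℝ)) ^ k := pow_le_pow_left₀ hS0 hS k
      calc C * (2 * (N : ℝ)) ^ ε * M * (1 + (2 * (N : ℝ)) ^ k / T) *
            (∑ n ∈ Icc N (2 * N), ‖b n‖ ^ 2) ^ k
          ≤ C * (2 * (N : ℝ)) ^ ε * M * (1 + 2 ^ k) * (2 * (N : ℝ)) ^ k := by gcongr
        _ = C1 * (N : ℝ) ^ ε * M * (N : ℝ) ^ k := by
            rw [hC1, Real.mul_rpow (by norm_num) hN0.le, mul_pow]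
            ring
  have hsqN : 0 < Real.sqrt N := Real.sqrt_pos.2 hN0
  -- the first alternative
  have hfirst : ∀ (R V : ℝ), 0 ≤ R → 0 < V → V ≤ 2 * N →
      V ^ 2 * ((W.filter (fun i => V ≤ d i)).card : ℝ) ≤ C * (2 * N) ^ 2 →
      V ^ q * ((W.filter (fun i => V ≤ d i)).card : ℝ) ≤
        C2 * (N : ℝ) ^ ε * ((2 * (N : ℝ)) ^ q + R * (N : ℝ) ^ (q / 2)) := by
    intro R V hR hV hV2 h1
    have e1 : V ^ q = V ^ (q - 2) * V ^ 2 := by
      rw [← Real.rpow_natCast V 2, ← Real.rpow_add hV]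
      congr 1
      push_cast
      ring
    have e2 : (2 * (N : ℝ)) ^ q = (2 * (N : ℝ)) ^ (q - 2) * (2 * (N : ℝ)) ^ 2 := by
      rw [← Real.rpow_natCast (2 * (N : ℝ)) 2, ← Real.rpow_add (by positivity)]
      congr 1
      push_cast
      ring
    have h2 : V ^ (q - 2) ≤ (2 * (N : ℝ)) ^ (q - 2) := Real.rpow_le_rpow hV.le hV2 (by linarith)
    calc V ^ q * ((W.filter (fun i => V ≤ d i)).card : ℝ)
        = V ^ (q - 2) * (V ^ 2 * ((W.filter (fun i => V ≤ d i)).card : ℝ)) := by rw [e1]; ring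
      _ ≤ (2 * (N : ℝ)) ^ (q - 2) * (C * (2 * N) ^ 2) :=
          mul_le_mul h2 h1 (by positivity) (by positivity)
      _ = C * 1 * (2 * (N : ℝ)) ^ q := by rw [e2]; ring
      _ ≤ C2 * (N : ℝ) ^ ε * ((2 * (N : ℝ)) ^ q + R * (N : ℝ) ^ (q / 2)) := by
          have h3 : C * 1 ≤ C2 * (N : ℝ) ^ ε := by
            apply mul_le_mul _ hNε (by norm_num) (by linarith)
            rw [hC2]; linarith
          have h4 : 0 ≤ R * (N : ℝ) ^ (q / 2) := by positivity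
          apply mul_le_mul h3 (by linarith) (by positivity) (by positivity)
  simp only [hd']
  constructor
  · intro hqk
    obtain ⟨θ, hθ⟩ : ∃ θ : ℝ, θ = q / (2 * k) := ⟨_, rfl⟩
    rw [← hθ]
    have hθ0 : 0 < θ := by rw [hθ]; positivity
    have hθ1 : θ ≤ 1 := by rw [hθ, div_le_one (by positivity)]; exact hqk
    have hθk : 2 * k * θ = q := by rw [hθ]; field_simp
    obtain ⟨R, hR⟩ : ∃ R : ℝ, R = (W.card : ℝ) ^ (1 - θ) * (M : ℝ) ^ θ := ⟨_, rfl⟩
    rw [← hR]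
    have hW0 : (0 : ℝ) ≤ W.card := Nat.cast_nonneg _
    have hR0 : 0 ≤ R := by rw [hR]; positivity
    have hWR : (W.card : ℝ) ≤ R := by
      rcases hW0.lt_or_eq with h1 | h1
      · calc (W.card : ℝ) = (W.card : ℝ) ^ (1 - θ) * (W.card : ℝ) ^ θ := by
              rw [← Real.rpow_add h1]
              simp
          _ ≤ R := by
              rw [hR]
              exact mul_le_mul_of_nonneg_left (Real.rpow_le_rpow hW0 hWM hθ0.le) (by positivity)
      · rw [← h1]; exact hR0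
    apply lq_general W d hd0 N hN q ε C2 R hq hε hC21 hWR hdmax
    intro V hV hV2
    have hV0 : 0 < V := lt_of_lt_of_le hsqN hV
    rcases hlv V hV0 with h1 | h1
    · exact hfirst R V hR0 hV0 hV2 h1
    · obtain ⟨c, hc⟩ : ∃ c : ℝ, c = ((W.filter (fun i => V ≤ d i)).card : ℝ) := ⟨_, rfl⟩
      have hc0 : 0 ≤ c := by rw [hc]; exact Nat.cast_nonneg _
      have hcW : c ≤ W.card := by rw [hc]; exact_mod_cast card_filter_le _ _
      rw [← hc] at h1 ⊢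
      rcases hc0.lt_or_eq with hcp | hcz
      swap
      · rw [← hcz, mul_zero]
        have : 0 ≤ R * (N : ℝ) ^ (q / 2) := by positivity
        positivity
      have h2 : c = c ^ (1 - θ) * c ^ θ := by
        rw [← Real.rpow_add hcp]
        simp
      have h3 : c ^ (1 - θ) ≤ (W.card : ℝ) ^ (1 - θ) := Real.rpow_le_rpow hc0 hcW (by linarith)
      have h4 : V ^ q * c ^ θ ≤ (C1 * (N : ℝ) ^ ε) ^ θ * (M : ℝ) ^ θ * (N : ℝ) ^ (q / 2) := by
        have e1 : V ^ q = (V ^ (2 * k)) ^ θ := by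
          rw [← Real.rpow_natCast V (2 * k), ← Real.rpow_mul hV0.le]
          congr 1
          push_cast
          exact hθk.symm
        have e2 : (N : ℝ) ^ (q / 2) = ((N : ℝ) ^ k) ^ θ := by
          rw [← Real.rpow_natCast (N : ℝ) k, ← Real.rpow_mul hN0.le]
          congr 1
          rw [← hθk]
          ring
        rw [e1, e2, ← Real.mul_rpow (by positivity) hc0, ← Real.mul_rpow (by positivity) (by positivity),
          ← Real.mul_rpow (by positivity) (by positivity)]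
        exact Real.rpow_le_rpow (by positivity) h1 hθ0.le
      have h5 : (C1 * (N : ℝ) ^ ε) ^ θ ≤ C2 * (N : ℝ) ^ ε := by
        have h6 : 1 ≤ C2 * (N : ℝ) ^ ε := one_le_mul_of_one_le_of_one_le hC21 hNε
        calc (C1 * (N : ℝ) ^ ε) ^ θ ≤ (C2 * (N : ℝ) ^ ε) ^ θ := by
              apply Real.rpow_le_rpow (by positivity) _ hθ0.le
              apply mul_le_mul_of_nonneg_right _ (by positivity)
              rw [hC2]; linarith
          _ ≤ (C2 * (N : ℝ) ^ ε) ^ (1 : ℝ) := Real.rpow_le_rpow_of_exponent_le h6 hθ1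
          _ = _ := Real.rpow_one _
      calc V ^ q * c = c ^ (1 - θ) * (V ^ q * c ^ θ) := by
            conv_lhs => rw [h2]
            ring
        _ ≤ (W.card : ℝ) ^ (1 - θ) * ((C1 * (N : ℝ) ^ ε) ^ θ * (M : ℝ) ^ θ * (N : ℝ) ^ (q / 2)) :=
            mul_le_mul h3 h4 (mul_nonneg (Real.rpow_nonneg hV0.le _) (Real.rpow_nonneg hc0 _))
              (Real.rpow_nonneg (Nat.cast_nonneg _) _)
        _ = (C1 * (N : ℝ) ^ ε) ^ θ * (R * (N : ℝ) ^ (q / 2)) := by rw [hR]; ring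
        _ ≤ (C2 * (N : ℝ) ^ ε) * (R * (N : ℝ) ^ (q / 2)) :=
            mul_le_mul_of_nonneg_right h5 (by positivity)
        _ ≤ C2 * (N : ℝ) ^ ε * ((2 * (N : ℝ)) ^ q + R * (N : ℝ) ^ (q / 2)) := by
            apply mul_le_mul_of_nonneg_left _ (by positivity)
            have : 0 ≤ (2 * (N : ℝ)) ^ q := by positivity
            linarith
  · have hM0 : (0 : ℝ) ≤ M := Nat.cast_nonneg _
    apply lq_general W d hd0 N hN q ε C2 M hq hε hC21 hWM hdmax
    intro V hV hV2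
    have hV0 : 0 < V := lt_of_lt_of_le hsqN hV
    rcases hlv V hV0 with h1 | h1
    · exact hfirst M V hM0 hV0 hV2 h1
    · obtain ⟨c, hc⟩ : ∃ c : ℝ, c = ((W.filter (fun i => V ≤ d i)).card : ℝ) := ⟨_, rfl⟩
      have hc0 : 0 ≤ c := by rw [hc]; exact Nat.cast_nonneg _
      rw [← hc] at h1 ⊢
      have e1 : V ^ q = V ^ (q - 2 * k) * V ^ (2 * k) := by
        rw [← Real.rpow_natCast V (2 * k), ← Real.rpow_add hV0]
        congr 1
        push_cast
        ring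
      have e2 : V ^ q * c = V ^ (q - 2 * k) * (V ^ (2 * k) * c) := by rw [e1]; ring
      rw [e2]
      have hC1C2 : C1 ≤ C2 := by rw [hC2]; linarith
      rcases le_total (2 * (k : ℝ)) q with hqk | hqk
      · have h2 : V ^ (q - 2 * k) ≤ (2 * (N : ℝ)) ^ (q - 2 * k) :=
          Real.rpow_le_rpow hV0.le hV2 (by linarith)
        have h3 : (M : ℝ) * (N : ℝ) ^ k ≤ (2 * (N : ℝ)) ^ (2 * k) := by
          calc (M : ℝ) * (N : ℝ) ^ k ≤ (N : ℝ) ^ k * (N : ℝ) ^ k :=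
                mul_le_mul_of_nonneg_right hM (by positivity)
            _ = (N : ℝ) ^ (2 * k) := by ring
            _ ≤ (2 * (N : ℝ)) ^ (2 * k) := pow_le_pow_left₀ hN0.le (by linarith) _
        have e3 : (2 * (N : ℝ)) ^ q = (2 * (N : ℝ)) ^ (q - 2 * k) * (2 * (N : ℝ)) ^ (2 * k) := by
          rw [← Real.rpow_natCast (2 * (N : ℝ)) (2 * k), ← Real.rpow_add (by positivity)]
          congr 1
          push_cast
          ring
        calc V ^ (q - 2 * k) * (V ^ (2 * k) * c)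
            ≤ (2 * (N : ℝ)) ^ (q - 2 * k) * (C1 * (N : ℝ) ^ ε * M * (N : ℝ) ^ k) :=
              mul_le_mul h2 h1 (by positivity) (by positivity)
          _ = C1 * (N : ℝ) ^ ε * ((2 * (N : ℝ)) ^ (q - 2 * k) * (M * (N : ℝ) ^ k)) := by ring
          _ ≤ C2 * (N : ℝ) ^ ε * ((2 * (N : ℝ)) ^ (q - 2 * k) * (2 * (N : ℝ)) ^ (2 * k)) := by gcongr
          _ = C2 * (N : ℝ) ^ ε * (2 * (N : ℝ)) ^ q := by rw [e3]
          _ ≤ C2 * (N : ℝ) ^ ε * ((2 * (N : ℝ)) ^ q + M * (N : ℝ) ^ (q / 2)) := by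
              apply mul_le_mul_of_nonneg_left _ (by positivity)
              have : 0 ≤ (M : ℝ) * (N : ℝ) ^ (q / 2) := by positivity
              linarith
      · -- `q ≤ 2k`: `V^(q-2k) ≤ N^((q-2k)/2)`
        have h2 : V ^ (q - 2 * k) ≤ (N : ℝ) ^ ((q - 2 * k) / 2) := by
          have h3 : Real.sqrt N ^ (q - 2 * k) = (N : ℝ) ^ ((q - 2 * k) / 2) := by
            rw [Real.sqrt_eq_rpow, ← Real.rpow_mul hN0.le]
            congr 1
            ring
          rw [← h3]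
          exact Real.rpow_le_rpow_of_nonpos hsqN hV (by linarith)
        have e3 : (N : ℝ) ^ ((q - 2 * k) / 2) * (N : ℝ) ^ k = (N : ℝ) ^ (q / 2) := by
          rw [← Real.rpow_natCast (N : ℝ) k, ← Real.rpow_add hN0]
          congr 1
          ring
        calc V ^ (q - 2 * k) * (V ^ (2 * k) * c)
            ≤ (N : ℝ) ^ ((q - 2 * k) / 2) * (C1 * (N : ℝ) ^ ε * M * (N : ℝ) ^ k) :=
              mul_le_mul h2 h1 (by positivity) (by positivity)
          _ = C1 * (N : ℝ) ^ ε * (M * ((N : ℝ) ^ ((q - 2 * k) / 2) * (N : ℝ) ^ k)) := by ring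
          _ = C1 * (N : ℝ) ^ ε * (M * (N : ℝ) ^ (q / 2)) := by rw [e3]
          _ ≤ C2 * (N : ℝ) ^ ε * ((2 * (N : ℝ)) ^ q + M * (N : ℝ) ^ (q / 2)) := by
              have h5 : (M : ℝ) * (N : ℝ) ^ (q / 2) ≤ (2 * (N : ℝ)) ^ q + M * (N : ℝ) ^ (q / 2) := by
                have : 0 ≤ (2 * (N : ℝ)) ^ q := by positivity
                linarith
              gcongr

end Pool.Agent.Y959.Smp
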