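import Pool.Agent.Y959.Her.Core

set_option autoImplicit false

/-!
# High moments of Dirichlet polynomials at integer shifts, intervals of any length
-/

namespace Pool.Agent.Y959.Smp

open Finset Pool.Agent.TH705.DL Pool.Agent.Y959.Her

/-- the moments at integer shifts -/
theorem momentL (N : ℕ) (hN : 1 ≤ N) (a : ℕ → ℂ) (k : ℕ) (D : ℝ)
    (hD : ∀ m ∈ Icc 1 (N ^ k), (m.divisors.card : ℝ) ≤ D) (L : ℕ) (hL1 : 1 ≤ L) (s : ℝ) :
    ∑ u : Fin L, ‖DP N a (s + (u : ℕ))‖ ^ (2 * k) ≤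
      (2 + Real.log ((N : ℝ) ^ k) ^ 2) * (L + 4 * (N : ℝ) ^ k * (1 + Real.log ((N : ℝ) ^ k))) *
        (D ^ k * (∑ n ∈ Icc 1 N, ‖a n‖ ^ 2) ^ k) := by
  classical
  have hY1 : 1 ≤ N ^ k := Nat.one_le_pow _ _ hN
  set S : Finset ℝ := (univ : Finset (Fin L)).image (fun u : Fin L => s + ((u : ℕ) : ℝ)) with hS
  have hinj : Set.InjOn (fun u : Fin L => s + ((u : ℕ) : ℝ)) (univ : Finset (Fin L)) := by
    intro u _ u' _ h
    have h1 : ((u : ℕ) : ℝ) = ((u' : ℕ) : ℝ) := by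
      have : s + ((u : ℕ) : ℝ) = s + ((u' : ℕ) : ℝ) := h
      linarith
    exact Fin.ext (by exact_mod_cast h1)
  have hsep : Sep S := by
    intro t ht u hu htu
    rw [hS, mem_image] at ht hu
    obtain ⟨x, _, rfl⟩ := ht
    obtain ⟨y, _, rfl⟩ := hu
    have hxy : (x : ℕ) ≠ (y : ℕ) := by
      intro h
      exact htu (by rw [h])
    have e : s + ((x : ℕ) : ℝ) - (s + ((y : ℕ) : ℝ)) = (((x : ℕ) : ℤ) - ((y : ℕ) : ℤ) : ℤ) := by
      push_cast
      ring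
    rw [e, ← Int.cast_abs]
    have h2 : (1 : ℤ) ≤ |((x : ℕ) : ℤ) - ((y : ℕ) : ℤ)| := Int.one_le_abs (by omega)
    exact_mod_cast h2
  have hx : ∀ t ∈ S, s ≤ t ∧ t ≤ s + (L - 1) := by
    intro t ht
    rw [hS, mem_image] at ht
    obtain ⟨x, _, rfl⟩ := ht
    have h1 : ((x : ℕ) : ℝ) + 1 ≤ L := by exact_mod_cast x.2
    have h2 : (0 : ℝ) ≤ ((x : ℕ) : ℝ) := Nat.cast_nonneg _
    constructor <;> linarith
  have hL1' : (1 : ℝ) ≤ L := by exact_mod_cast hL1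
  have h := block (N ^ k) hY1 (pw N a k) S hsep s (s + (L - 1)) (by linarith) hx
  have h1 : ∑ u : Fin L, ‖DP N a (s + (u : ℕ))‖ ^ (2 * k) = ∑ t ∈ S, ‖DP (N ^ k) (pw N a k) t‖ ^ 2 := by
    rw [hS, sum_image hinj]
    apply sum_congr rfl
    intro u _
    rw [← pow_eq, norm_pow, ← pow_mul, mul_comm 2 k]
  rw [h1]
  refine h.trans ?_
  push_cast
  have hY1' : (1 : ℝ) ≤ (N : ℝ) ^ k := one_le_pow₀ (by exact_mod_cast hN)
  have h2 : s + ((L : ℝ) - 1) + 1 - s + 4 * (N : ℝ) ^ k * (1 + Real.log ((N : ℝ) ^ k)) =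
      L + 4 * (N : ℝ) ^ k * (1 + Real.log ((N : ℝ) ^ k)) := by ring
  rw [h2]
  have h5 := pw_l2 N a k D hD hN k le_rfl
  apply mul_le_mul_of_nonneg_left h5
  have h6 : 0 ≤ Real.log ((N : ℝ) ^ k) := Real.log_nonneg hY1'
  have h7 : (0 : ℝ) ≤ (N : ℝ) ^ k := by linarith
  exact mul_nonneg (by positivity) (by positivity)

/-- the constants -/
theorem consts (δ : ℝ) (hδ : 0 < δ) (k : ℕ) :
    ∃ K1 : ℝ, 0 < K1 ∧ ∀ N : ℕ, 1 ≤ N → ∃ D : ℝ, (∀ m ∈ Icc 1 (N ^ k), (m.divisors.card : ℝ) ≤ D) ∧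
      ∀ L : ℝ, 0 ≤ L → (2 + Real.log ((N : ℝ) ^ k) ^ 2) *
        (L + 4 * (N : ℝ) ^ k * (1 + Real.log ((N : ℝ) ^ k))) * D ^ k ≤
          K1 * (N : ℝ) ^ δ * (L + (N : ℝ) ^ k) := by
  set κ : ℝ := (k : ℝ) + 1 with hκ
  have hκ0 : 0 < κ := by positivity
  have hk0 : (0 : ℝ) ≤ k := Nat.cast_nonneg _
  set η : ℝ := δ / (6 * κ) with hη
  have hη0 : 0 < η := by positivity
  set η' : ℝ := δ / (2 * κ ^ 2) with hη'
  have hη'0 : 0 < η' := by positivity
  obtain ⟨C0, hC0, hdiv⟩ := Pool.Agent.Helper112.divisor_bound η' hη'0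
  refine ⟨2 * (1 + 1 / η) ^ 2 * (4 * (1 + 1 / η)) * C0 ^ k, by positivity, ?_⟩
  intro N hN
  have hN1 : (1 : ℝ) ≤ N := by exact_mod_cast hN
  have hN0 : (0 : ℝ) < N := by linarith
  obtain ⟨x, hx⟩ : ∃ x : ℝ, x = (N : ℝ) ^ k := ⟨_, rfl⟩
  have hx1 : 1 ≤ x := by rw [hx]; exact one_le_pow₀ hN1
  have hx0 : 0 < x := by linarith
  refine ⟨C0 * x ^ η', ?_, ?_⟩
  · intro m hm
    rw [mem_Icc] at hm
    refine (hdiv m hm.1).trans ?_
    apply mul_le_mul_of_nonneg_left _ hC0.le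
    apply Real.rpow_le_rpow (Nat.cast_nonneg _) _ hη'0.le
    rw [hx]
    exact_mod_cast hm.2
  · intro L hL
    rw [← hx]
    have hl0 : 0 ≤ Real.log x := Real.log_nonneg hx1
    have hxη : 1 ≤ x ^ η := Real.one_le_rpow hx1 hη0.le
    have h1 : 1 + Real.log x ≤ (1 + 1 / η) * x ^ η := by
      have h2 : Real.log x ≤ x ^ η / η := Real.log_le_rpow_div hx0.le hη0
      calc 1 + Real.log x ≤ x ^ η + x ^ η / η := add_le_add hxη h2
        _ = (1 + 1 / η) * x ^ η := by ring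
    have h2 : 2 + Real.log x ^ 2 ≤ 2 * ((1 + 1 / η) * x ^ η) ^ 2 := by
      calc 2 + Real.log x ^ 2 ≤ 2 * (1 + Real.log x) ^ 2 := by nlinarith
        _ ≤ _ := mul_le_mul_of_nonneg_left (pow_le_pow_left₀ (by positivity) h1 2) (by norm_num)
    have h3 : L + 4 * x * (1 + Real.log x) ≤ 4 * ((1 + 1 / η) * x ^ η) * (L + x) := by
      have h4 : 1 ≤ (1 + 1 / η) * x ^ η := by
        have : 1 ≤ 1 + Real.log x := by linarith
        linarith
      have h5 : L ≤ 4 * ((1 + 1 / η) * x ^ η) * L := by nlinarith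
      have h6 : 4 * x * (1 + Real.log x) ≤ 4 * x * ((1 + 1 / η) * x ^ η) :=
        mul_le_mul_of_nonneg_left h1 (by positivity)
      nlinarith
    have h4 : 0 ≤ L + 4 * x * (1 + Real.log x) := by positivity
    have hexp : x ^ (3 * η) * (x ^ η') ^ k ≤ (N : ℝ) ^ δ := by
      rw [← Real.rpow_natCast (x ^ η') k, ← Real.rpow_mul hx0.le, ← Real.rpow_add hx0, hx,
        ← Real.rpow_natCast (N : ℝ) k, ← Real.rpow_mul hN0.le]
      apply Real.rpow_le_rpow_of_exponent_le hN1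
      have e1 : (k : ℝ) * (3 * η) ≤ δ / 2 := by
        rw [hη]
        have : (k : ℝ) * (3 * (δ / (6 * κ))) = (k / κ) * (δ / 2) := by
          field_simp
          ring
        rw [this]
        have h7 : (k : ℝ) / κ ≤ 1 := by rw [div_le_one hκ0]; linarith
        nlinarith
      have e2 : (k : ℝ) * (η' * k) ≤ δ / 2 := by
        rw [hη']
        have : (k : ℝ) * (δ / (2 * κ ^ 2) * k) = (k / κ) ^ 2 * (δ / 2) := by
          field_simp
        rw [this]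
        have h7 : (k : ℝ) / κ ≤ 1 := by rw [div_le_one hκ0]; linarith
        have h8 : ((k : ℝ) / κ) ^ 2 ≤ 1 := pow_le_one₀ (by positivity) h7
        nlinarith
      have e3 : (k : ℝ) * (3 * η + η' * k) = k * (3 * η) + k * (η' * k) := by ring
      rw [e3]
      linarith
    calc (2 + Real.log x ^ 2) * (L + 4 * x * (1 + Real.log x)) * (C0 * x ^ η') ^ k
        ≤ (2 * ((1 + 1 / η) * x ^ η) ^ 2) * (4 * ((1 + 1 / η) * x ^ η) * (L + x)) *
            (C0 * x ^ η') ^ k := by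
          apply mul_le_mul_of_nonneg_right _ (by positivity)
          exact mul_le_mul h2 h3 h4 (by positivity)
      _ = (2 * (1 + 1 / η) ^ 2 * (4 * (1 + 1 / η)) * C0 ^ k) * (x ^ (3 * η) * (x ^ η') ^ k) * (L + x) := by
          have e : x ^ (3 * η) = (x ^ η) ^ 3 := by
            rw [← Real.rpow_natCast, ← Real.rpow_mul hx0.le]
            congr 1
            push_cast
            ring
          rw [e, mul_pow]
          ring
      _ ≤ (2 * (1 + 1 / η) ^ 2 * (4 * (1 + 1 / η)) * C0 ^ k) * (N : ℝ) ^ δ * (L + x) := by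
          apply mul_le_mul_of_nonneg_right _ (by linarith)
          exact mul_le_mul_of_nonneg_left hexp (by positivity)

open Classical in
/-- the number of the exceedances -/
theorem count (N : ℕ) (hN : 1 ≤ N) (I : Finset ℕ) (hI : I ⊆ Icc 1 N) (k : ℕ) (D : ℝ)
    (hD : ∀ m ∈ Icc 1 (N ^ k), (m.divisors.card : ℝ) ≤ D) (L : ℕ) (hL : 1 ≤ L) (s : ℝ) (G : ℝ)
    (hG : (2 + Real.log ((N : ℝ) ^ k) ^ 2) * (L + 4 * (N : ℝ) ^ k * (1 + Real.log ((N : ℝ) ^ k))) *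
        D ^ k ≤ G) (lam : ℝ) (hlam : 0 < lam) (y : EuclideanSpace ℂ {n // n ∈ I}) (hy : y ≠ 0) :
    ((univ.filter (fun u : Fin L => lam * ‖y‖ ≤ ‖(inner ℂ y (vec I (s + (u : ℕ))) : ℂ)‖)).card : ℝ) ≤
      G / lam ^ (2 * k) := by
  set F := univ.filter (fun u : Fin L => lam * ‖y‖ ≤ ‖(inner ℂ y (vec I (s + (u : ℕ))) : ℂ)‖) with hF
  have hy0 : 0 < ‖y‖ := norm_pos_iff.2 hy
  have hext : ∀ t : ℝ, (inner ℂ y (vec I t) : ℂ) = DP N (co I y) t := by
    intro t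
    rw [inner_vec]
    unfold DP
    apply sum_subset hI
    intro n _ hn
    unfold co
    rw [dif_neg hn, zero_mul]
  have hl2 : ∑ n ∈ Icc 1 N, ‖co I y n‖ ^ 2 = ‖y‖ ^ 2 := by
    rw [← norm_co]
    symm
    apply sum_subset hI
    intro n _ hn
    unfold co
    rw [dif_neg hn]
    simp
  have hm := momentL N hN (co I y) k D hD L hL s
  rw [hl2] at hm
  have h1 : (F.card : ℝ) * (lam * ‖y‖) ^ (2 * k) ≤
      ∑ u : Fin L, ‖DP N (co I y) (s + (u : ℕ))‖ ^ (2 * k) := by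
    calc (F.card : ℝ) * (lam * ‖y‖) ^ (2 * k) = ∑ u ∈ F, (lam * ‖y‖) ^ (2 * k) := by
          rw [sum_const, nsmul_eq_mul]
      _ ≤ ∑ u ∈ F, ‖DP N (co I y) (s + (u : ℕ))‖ ^ (2 * k) := by
          apply sum_le_sum
          intro u hu
          rw [← hext]
          exact pow_le_pow_left₀ (mul_nonneg hlam.le (norm_nonneg _)) (mem_filter.1 hu).2 _
      _ ≤ _ := sum_le_sum_of_subset_of_nonneg (subset_univ _) (fun _ _ _ => by positivity)
  have h2 := h1.trans hm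
  have h3 : (0:ℝ) < (‖y‖ ^ 2) ^ k := by positivity
  rw [le_div_iff₀ (by positivity)]
  have h4 : ((F.card : ℝ) * lam ^ (2 * k)) * (‖y‖ ^ 2) ^ k ≤ G * (‖y‖ ^ 2) ^ k := by
    have e1 : ((F.card : ℝ) * lam ^ (2 * k)) * (‖y‖ ^ 2) ^ k = (F.card : ℝ) * (lam * ‖y‖) ^ (2 * k) := by
      rw [mul_pow, ← pow_mul, mul_assoc]
    rw [e1]
    refine h2.trans ?_
    rw [← mul_assoc]
    exact mul_le_mul_of_nonneg_right hG h3.le
  exact le_of_mul_le_mul_right h4 h3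

end Pool.Agent.Y959.Smp
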