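import Pool.Agent.Y959.Smp.Par
import Pool.Agent.Y959.Smp.Mo

set_option autoImplicit false

/-!
# The sampling theorem for Dirichlet polynomials
-/

namespace Pool.Agent.Y959.Smp

open Finset Pool.Agent.TH705.DL Pool.Agent.Y959.Her

/-- the large value property with a majorant `r` -/
def LVr {ι : Type*} [Fintype ι] (I : Finset ℕ) (r : ℝ → ℝ) (C θ : ℝ) (t : ι → ℝ) : Prop :=
  ∀ (a : ℕ → ℂ) (V : ℝ) (W : Finset ι), 0 < V → (∀ i ∈ W, V ≤ ‖∑ n ∈ I, a n * ph (t i) n‖) →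
    V ^ 2 * W.card ≤ C * I.card * ∑ n ∈ I, ‖a n‖ ^ 2 ∨
      (0 < ∑ n ∈ I, ‖a n‖ ^ 2 ∧
        (W.card : ℝ) ≤ θ * Fintype.card ι * r (V / Real.sqrt (∑ n ∈ I, ‖a n‖ ^ 2) / 8))

theorem sum_eq_zero_of (I : Finset ℕ) (a : ℕ → ℂ) (h : ¬ 0 < ∑ n ∈ I, ‖a n‖ ^ 2) (t : ℝ) :
    ∑ n ∈ I, a n * ph t n = 0 := by
  have h0 : ∑ n ∈ I, ‖a n‖ ^ 2 = 0 :=
    le_antisymm (not_lt.1 h) (sum_nonneg fun _ _ => sq_nonneg _)
  rw [sum_eq_zero_iff_of_nonneg (fun _ _ => sq_nonneg _)] at h0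
  apply sum_eq_zero
  intro n hn
  have h1 : ‖a n‖ = 0 := by
    have := h0 n hn
    simpa using this
  rw [norm_eq_zero.1 h1, zero_mul]

theorem smpl_lvr {ι : Type*} [Fintype ι] [DecidableEq ι] (I : Finset ℕ) (r : ℝ → ℝ) (C θ : ℝ)
    (t : ι → ℝ) (h : Smpl (fun i => vec I (t i)) I.card r C θ) :
    LVr I r (3 * C) (48 * θ) t := by
  intro a V W hV hW
  rcases W.eq_empty_or_nonempty with h0 | hne
  · by_cases hS : 0 < ∑ n ∈ I, ‖a n‖ ^ 2
    · have h1 := h (WithLp.toLp 2 (fun n => (starRingEnd ℂ) (a n.1)))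
      set x : EuclideanSpace ℂ {n // n ∈ I} := WithLp.toLp 2 (fun n => (starRingEnd ℂ) (a n.1)) with hx
      have hco : ∀ n ∈ I, co I x n = a n := by
        intro n hn
        unfold co
        rw [dif_pos hn]
        show (starRingEnd ℂ) ((starRingEnd ℂ) (a n)) = a n
        exact Complex.conj_conj _
      have hx2 : ‖x‖ ^ 2 = ∑ n ∈ I, ‖a n‖ ^ 2 := by
        rw [← norm_co]
        exact sum_congr rfl fun n hn => by rw [hco n hn]
      have hxn : ‖x‖ = Real.sqrt (∑ n ∈ I, ‖a n‖ ^ 2) := by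
        rw [← hx2, Real.sqrt_sq (norm_nonneg _)]
      have hx0 : x ≠ 0 := by
        intro h2
        rw [h2, norm_zero] at hx2
        norm_num at hx2
        linarith
      have hxp : 0 < ‖x‖ := norm_pos_iff.2 hx0
      rcases h1 (V / ‖x‖) ∅ hx0 (div_pos hV hxp) (by simp) with h2 | h2
      · left
        rw [h0]
        simp only [card_empty, Nat.cast_zero, mul_zero] at h2 ⊢
        exact mul_nonneg h2 hS.le
      · right
        refine ⟨hS, ?_⟩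
        rw [h0, ← hxn]
        exact h2
    · left
      have h0' : ∑ n ∈ I, ‖a n‖ ^ 2 = 0 :=
        le_antisymm (not_lt.1 hS) (sum_nonneg fun _ _ => sq_nonneg _)
      rw [h0, h0']
      simp
  obtain ⟨i0, hi0⟩ := hne
  by_cases hS : 0 < ∑ n ∈ I, ‖a n‖ ^ 2
  swap
  · exfalso
    have := hW i0 hi0
    rw [sum_eq_zero_of I a hS, norm_zero] at this
    linarith
  have h1 := h (WithLp.toLp 2 (fun n => (starRingEnd ℂ) (a n.1)))
  set x : EuclideanSpace ℂ {n // n ∈ I} := WithLp.toLp 2 (fun n => (starRingEnd ℂ) (a n.1)) with hx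
  have hco : ∀ n ∈ I, co I x n = a n := by
    intro n hn
    unfold co
    rw [dif_pos hn]
    show (starRingEnd ℂ) ((starRingEnd ℂ) (a n)) = a n
    exact Complex.conj_conj _
  have hx2 : ‖x‖ ^ 2 = ∑ n ∈ I, ‖a n‖ ^ 2 := by
    rw [← norm_co]
    exact sum_congr rfl fun n hn => by rw [hco n hn]
  have hxn : ‖x‖ = Real.sqrt (∑ n ∈ I, ‖a n‖ ^ 2) := by
    rw [← hx2, Real.sqrt_sq (norm_nonneg _)]
  have hx0 : x ≠ 0 := by
    intro h2
    rw [h2, norm_zero] at hx2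
    norm_num at hx2
    linarith
  have hxp : 0 < ‖x‖ := norm_pos_iff.2 hx0
  have hW' : ∀ i ∈ W, V / ‖x‖ * ‖x‖ ≤ ‖(inner ℂ x (vec I (t i)) : ℂ)‖ := by
    intro i hi
    rw [div_mul_cancel₀ _ hxp.ne', inner_vec]
    refine (hW i hi).trans (le_of_eq ?_)
    congr 1
    exact sum_congr rfl fun n hn => by rw [hco n hn]
  rcases h1 (V / ‖x‖) W hx0 (div_pos hV hxp) hW' with h2 | h2
  · left
    rw [← hx2]
    rw [div_pow, div_mul_eq_mul_div, div_le_iff₀ (pow_pos hxp 2)] at h2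
    exact h2
  · right
    refine ⟨hS, ?_⟩
    rw [← hxn]
    exact h2

open Classical in
/-- **The sampling theorem with an arbitrary majorant.** -/
theorem core_r (ε A B : ℝ) (hε : 0 < ε) (hA : 0 ≤ A) (hB : 0 ≤ B) (N : ℕ) (ι : Type) [Fintype ι]
    [DecidableEq ι] (hN : 1 ≤ N) (hM : (Fintype.card ι : ℝ) ≤ (N : ℝ) ^ B) (L : ℕ) (I : Finset ℕ)
    (s : ι → ℝ) (r : ℝ → ℝ) (hanti : ∀ x y : ℝ, 0 < x → x ≤ y → y ^ 2 * r y ≤ x ^ 2 * r x)
    (hr : ∀ (i : ι) (y : EuclideanSpace ℂ {n // n ∈ I}) (lam : ℝ), y ≠ 0 → 0 < lam →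
      ((univ.filter (fun u : Fin L =>
        lam * ‖y‖ ≤ ‖(inner ℂ y (vec I (s i + ((u : ℕ) : ℝ))) : ℂ)‖)).card : ℝ) ≤ r lam * L) :
    ((univ.filter (fun ω : ι → Fin L =>
      ¬ LVr I r (3 * CC ε A B) (48 * (4 * (N : ℝ) ^ ε)) (fun i => s i + ((ω i : ℕ) : ℝ)))).card : ℝ) ≤
        (N : ℝ) ^ (-A) * (L : ℝ) ^ Fintype.card ι := by
  have hN1 : (1 : ℝ) ≤ N := by exact_mod_cast hN
  have hN0 : (0 : ℝ) < N := by linarith
  have h1 := sampling (fun (i : ι) (u : Fin L) => vec I (s i + ((u : ℕ) : ℝ))) I.card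
    (fun i x => (vec_norm I _).le) r (fun lam hlam i y hy => hr i y lam hy hlam) hanti
    (CC ε A B) (4 * (N : ℝ) ^ ε) ((N : ℝ) ^ (-A)) (CC_ge ε A B hε hA hB) (by positivity)
    (by
      intro w hw
      rcases Nat.eq_zero_or_pos (Fintype.card ι) with h0 | hpos
      · rw [h0]
        simp only [Nat.cast_zero, mul_zero]
        positivity
      · exact par ε A B hε hA hB N (Fintype.card ι) hN hpos hM w hw)
  refine le_trans ?_ h1
  have h3 : ∀ S T : Finset (ι → Fin L), S ⊆ T → (S.card : ℝ) ≤ (T.card : ℝ) := fun S T h => by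
    exact_mod_cast card_le_card h
  apply h3
  intro ω hω
  rw [mem_filter] at hω ⊢
  exact ⟨hω.1, fun h => hω.2 (smpl_lvr I r (CC ε A B) (4 * (N : ℝ) ^ ε) _ h)⟩

/-- the large value property for the moments `1, …, K` -/
def LVk {ι : Type*} [Fintype ι] (I : Finset ℕ) (N L K : ℕ) (C ε : ℝ) (t : ι → ℝ) : Prop :=
  ∀ (a : ℕ → ℂ) (V : ℝ) (W : Finset ι), 0 < V → (∀ i ∈ W, V ≤ ‖∑ n ∈ I, a n * ph (t i) n‖) →
    V ^ 2 * W.card ≤ C * I.card * ∑ n ∈ I, ‖a n‖ ^ 2 ∨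
      ∀ k ∈ Icc 1 K, V ^ (2 * k) * W.card ≤
        C * (N : ℝ) ^ ε * Fintype.card ι * (1 + (N : ℝ) ^ k / L) * (∑ n ∈ I, ‖a n‖ ^ 2) ^ k

open Classical in
theorem core_k (ε A B : ℝ) (hε : 0 < ε) (hA : 0 ≤ A) (hB : 0 ≤ B) (K : ℕ) (hK : 1 ≤ K) :
    ∃ C : ℝ, 0 < C ∧ ∀ (N : ℕ) (ι : Type) [Fintype ι] [DecidableEq ι], 1 ≤ N →
      (Fintype.card ι : ℝ) ≤ (N : ℝ) ^ B → ∀ L : ℕ, 1 ≤ L → ∀ I : Finset ℕ, I ⊆ Icc 1 N →
      ∀ s : ι → ℝ,
      ((univ.filter (fun ω : ι → Fin L =>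
        ¬ LVk I N L K C ε (fun i => s i + ((ω i : ℕ) : ℝ)))).card : ℝ) ≤
          (N : ℝ) ^ (-A) * (L : ℝ) ^ Fintype.card ι := by
  choose K1 hK1 hK2 using consts (ε / 2) (by positivity)
  set C1 : ℝ := ∑ k ∈ Icc 1 K, K1 k with hC1
  have hC1le : ∀ k ∈ Icc 1 K, K1 k ≤ C1 := fun k hk =>
    single_le_sum (f := K1) (fun j _ => (hK1 j).le) hk
  have hne : (Icc 1 K).Nonempty := ⟨1, mem_Icc.2 ⟨le_rfl, hK⟩⟩
  have hC1pos : 0 < C1 := lt_of_lt_of_le (hK1 1) (hC1le 1 (mem_Icc.2 ⟨le_rfl, hK⟩))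
  have hCC := CC_ge (ε / 2) A B (by positivity) hA hB
  set C : ℝ := 3 * CC (ε / 2) A B + 192 * 64 ^ K * C1 with hC
  have hC0 : 0 < C := by positivity
  refine ⟨C, hC0, ?_⟩
  intro N ι _ _ hN hM L hL I hI s
  have hN1 : (1 : ℝ) ≤ N := by exact_mod_cast hN
  have hN0 : (0 : ℝ) < N := by linarith
  have hL0 : (0 : ℝ) < L := by exact_mod_cast hL
  set rk : ℕ → ℝ → ℝ := fun k lam => C1 * (N : ℝ) ^ (ε / 2) * (L + (N : ℝ) ^ k) / L / lam ^ (2 * k)
    with hrk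
  set r : ℝ → ℝ := fun lam => (Icc 1 K).inf' hne (fun k => rk k lam) with hr
  have hanti : ∀ x y : ℝ, 0 < x → x ≤ y → y ^ 2 * r y ≤ x ^ 2 * r x := by
    intro x y hx hxy
    obtain ⟨k, hk, hke⟩ := exists_mem_eq_inf' hne (fun k => rk k x)
    have h1 : r x = rk k x := hke
    have h2 : r y ≤ rk k y := inf'_le _ hk
    have hy : 0 < y := lt_of_lt_of_le hx hxy
    have hk1 := (mem_Icc.1 hk).1
    obtain ⟨j, rfl⟩ : ∃ j, k = j + 1 := ⟨k - 1, by omega⟩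
    rw [h1]
    refine (mul_le_mul_of_nonneg_left h2 (by positivity)).trans ?_
    have e : ∀ z : ℝ, 0 < z → z ^ 2 * rk (j + 1) z =
        C1 * (N : ℝ) ^ (ε / 2) * (L + (N : ℝ) ^ (j + 1)) / L / z ^ (2 * j) := by
      intro z hz
      rw [hrk]
      simp only
      have : z ^ (2 * (j + 1)) = z ^ 2 * z ^ (2 * j) := by ring
      rw [this]
      field_simp
    rw [e x hx, e y hy]
    apply div_le_div_of_nonneg_left (by positivity) (by positivity)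
    exact pow_le_pow_left₀ hx.le hxy _
  have hcnt : ∀ (i : ι) (y : EuclideanSpace ℂ {n // n ∈ I}) (lam : ℝ), y ≠ 0 → 0 < lam →
      ((univ.filter (fun u : Fin L =>
        lam * ‖y‖ ≤ ‖(inner ℂ y (vec I (s i + ((u : ℕ) : ℝ))) : ℂ)‖)).card : ℝ) ≤ r lam * L := by
    intro i y lam hy hlam
    obtain ⟨k, hk, hke⟩ := exists_mem_eq_inf' hne (fun k => rk k lam)
    have h1 : r lam = rk k lam := hke
    rw [h1]
    obtain ⟨D, hD1, hD2⟩ := hK2 k N hN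
    have h2 := count N hN I hI k D hD1 L hL (s i) (K1 k * (N : ℝ) ^ (ε / 2) * (L + (N : ℝ) ^ k))
      (hD2 L hL0.le) lam hlam y hy
    refine h2.trans ?_
    have e : rk k lam * L = C1 * (N : ℝ) ^ (ε / 2) * (L + (N : ℝ) ^ k) / lam ^ (2 * k) := by
      rw [hrk]
      simp only
      field_simp
    rw [e]
    apply div_le_div_of_nonneg_right _ (by positivity)
    apply mul_le_mul_of_nonneg_right _ (by positivity)
    exact mul_le_mul_of_nonneg_right (hC1le k hk) (by positivity)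
  have h1 := core_r (ε / 2) A B (by positivity) hA hB N ι hN hM L I s r hanti hcnt
  refine le_trans ?_ h1
  have h3 : ∀ S T : Finset (ι → Fin L), S ⊆ T → (S.card : ℝ) ≤ (T.card : ℝ) := fun S T h => by
    exact_mod_cast card_le_card h
  apply h3
  intro ω hω
  rw [mem_filter] at hω ⊢
  refine ⟨hω.1, fun h => hω.2 ?_⟩
  intro a V W hV hW
  have hSnn : 0 ≤ ∑ n ∈ I, ‖a n‖ ^ 2 := sum_nonneg fun _ _ => sq_nonneg _
  rcases h a V W hV hW with h4 | ⟨hS, h4⟩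
  · left
    refine h4.trans ?_
    apply mul_le_mul_of_nonneg_right _ hSnn
    apply mul_le_mul_of_nonneg_right _ (Nat.cast_nonneg _)
    rw [hC]
    have : 0 ≤ 192 * 64 ^ K * C1 := by positivity
    linarith
  · right
    intro k hk
    have h5 : r (V / Real.sqrt (∑ n ∈ I, ‖a n‖ ^ 2) / 8) ≤
        rk k (V / Real.sqrt (∑ n ∈ I, ‖a n‖ ^ 2) / 8) := inf'_le _ hk
    obtain ⟨S, hSd⟩ : ∃ S, S = ∑ n ∈ I, ‖a n‖ ^ 2 := ⟨_, rfl⟩
    rw [← hSd] at hS h4 h5 ⊢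
    have hsq : 0 < Real.sqrt S := Real.sqrt_pos.2 hS
    have h6 : rk k (V / Real.sqrt S / 8) =
        C1 * (N : ℝ) ^ (ε / 2) * (1 + (N : ℝ) ^ k / L) * (64 ^ k * S ^ k) / V ^ (2 * k) := by
      rw [hrk]
      simp only
      have e1 : (V / Real.sqrt S / 8) ^ (2 * k) = V ^ (2 * k) / (64 ^ k * S ^ k) := by
        rw [div_div, div_pow, mul_pow, pow_mul (Real.sqrt S), Real.sq_sqrt hS.le, pow_mul (8 : ℝ)]
        have e64 : (8 : ℝ) ^ 2 = 64 := by norm_num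
        rw [e64, mul_comm (S ^ k)]
      rw [e1]
      have hVk : V ^ (2 * k) ≠ 0 := by positivity
      have hS64 : (64 : ℝ) ^ k * S ^ k ≠ 0 := by positivity
      field_simp
    have h7 : V ^ (2 * k) * W.card ≤ V ^ (2 * k) * (48 * (4 * (N : ℝ) ^ (ε / 2)) * Fintype.card ι *
        rk k (V / Real.sqrt S / 8)) := by
      apply mul_le_mul_of_nonneg_left _ (by positivity)
      exact h4.trans (mul_le_mul_of_nonneg_left h5 (by positivity))
    refine h7.trans ?_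
    rw [h6]
    have hk2 := (mem_Icc.1 hk).2
    have h64 : (64 : ℝ) ^ k ≤ 64 ^ K := pow_le_pow_right₀ (by norm_num) hk2
    have hNN : (N : ℝ) ^ (ε / 2) * (N : ℝ) ^ (ε / 2) = (N : ℝ) ^ ε := by
      rw [← Real.rpow_add hN0]
      congr 1
      ring
    have hV2 : V ^ (2 * k) ≠ 0 := by positivity
    calc V ^ (2 * k) * (48 * (4 * (N : ℝ) ^ (ε / 2)) * Fintype.card ι *
        (C1 * (N : ℝ) ^ (ε / 2) * (1 + (N : ℝ) ^ k / L) * (64 ^ k * S ^ k) / V ^ (2 * k)))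
        = (192 * 64 ^ k * C1) * ((N : ℝ) ^ (ε / 2) * (N : ℝ) ^ (ε / 2)) * Fintype.card ι *
            (1 + (N : ℝ) ^ k / L) * S ^ k := by
          field_simp
          ring
      _ ≤ C * (N : ℝ) ^ ε * Fintype.card ι * (1 + (N : ℝ) ^ k / L) * S ^ k := by
          rw [hNN]
          have h8 : 192 * 64 ^ k * C1 ≤ C := by
            rw [hC]
            have : 192 * 64 ^ k * C1 ≤ 192 * 64 ^ K * C1 :=
              mul_le_mul_of_nonneg_right (mul_le_mul_of_nonneg_left h64 (by norm_num)) hC1pos.le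
            linarith
          gcongr

end Pool.Agent.Y959.Smp
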