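import Pool.Agent.Y959.Her.Large
import Pool.Agent.Y959.Her.Prob

set_option autoImplicit false

/-!
# Large signed sums have a short summary (deterministic part)
-/

namespace Pool.Agent.Y959.Smp

open Finset Pool.Agent.Y959.Her

variable {ι E : Type*} [DecidableEq ι] [NormedAddCommGroup E] [InnerProductSpace ℂ E]

omit [DecidableEq ι] in
/-- greedy sampling -/
theorem greedy (W : Finset ι) (hW : W.Nonempty) (X : ι → E) (n : ℝ) (hX : ∀ i ∈ W, ‖X i‖ ^ 2 ≤ n)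
    (m : E) (hm : ∑ i ∈ W, X i = (W.card : ℂ) • m) (s : ℕ) :
    ∃ f : ℕ → ι, (∀ l, f l ∈ W) ∧ ‖∑ l ∈ range s, (X (f l) - m)‖ ^ 2 ≤ s * n := by
  induction s with
  | zero =>
    obtain ⟨i, hi⟩ := hW
    exact ⟨fun _ => i, fun _ => hi, by simp⟩
  | succ s ih =>
    obtain ⟨f, hf, hle⟩ := ih
    set S : E := ∑ l ∈ range s, (X (f l) - m) with hS
    have h0 : ‖S‖ ^ 2 = ‖S - m‖ ^ 2 + 2 * (inner ℂ (S - m) m : ℂ).re + ‖m‖ ^ 2 := by
      have := norm_add_sq (𝕜 := ℂ) (S - m) m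
      rw [sub_add_cancel] at this
      exact this
    have havg : ∑ i ∈ W, ‖S + (X i - m)‖ ^ 2 ≤ ∑ i ∈ W, (((s + 1 : ℕ) : ℝ) * n) := by
      have h1 : ∀ i ∈ W, ‖S + (X i - m)‖ ^ 2 ≤
          (‖S - m‖ ^ 2 + n) + 2 * (inner ℂ (S - m) (X i) : ℂ).re := by
        intro i hi
        have e : S + (X i - m) = (S - m) + X i := by abel
        have := norm_add_sq (𝕜 := ℂ) (S - m) (X i)
        rw [e, this]
        have := hX i hi
        have e2 : RCLike.re (inner ℂ (S - m) (X i) : ℂ) = (inner ℂ (S - m) (X i) : ℂ).re := rfl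
        rw [e2]
        linarith
      refine (sum_le_sum h1).trans ?_
      rw [sum_add_distrib, sum_const, ← mul_sum, sum_const, nsmul_eq_mul, nsmul_eq_mul]
      have h2 : ∑ i ∈ W, (inner ℂ (S - m) (X i) : ℂ).re = W.card * (inner ℂ (S - m) m : ℂ).re := by
        rw [← Complex.re_sum, ← inner_sum, hm, inner_smul_right]
        have : ((W.card : ℂ)) = ((W.card : ℝ) : ℂ) := by push_cast; rfl
        rw [this, Complex.re_ofReal_mul]
      rw [h2]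
      have h3 : (0 : ℝ) ≤ W.card := Nat.cast_nonneg _
      have h4 : ‖S - m‖ ^ 2 + n + 2 * (inner ℂ (S - m) m : ℂ).re ≤ ((s + 1 : ℕ) : ℝ) * n := by
        push_cast
        nlinarith [sq_nonneg ‖m‖]
      calc (W.card : ℝ) * (‖S - m‖ ^ 2 + n) + 2 * (W.card * (inner ℂ (S - m) m : ℂ).re)
          = W.card * (‖S - m‖ ^ 2 + n + 2 * (inner ℂ (S - m) m : ℂ).re) := by ring
        _ ≤ W.card * (((s + 1 : ℕ) : ℝ) * n) := mul_le_mul_of_nonneg_left h4 h3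
    obtain ⟨i, hi, hle'⟩ := exists_le_of_sum_le hW havg
    refine ⟨Function.update f s i, ?_, ?_⟩
    · intro l
      by_cases hl : l = s
      · rw [hl, Function.update_self]; exact hi
      · rw [Function.update_of_ne hl]; exact hf l
    · rw [sum_range_succ, Function.update_self]
      have e : ∑ l ∈ range s, (X (Function.update f s i l) - m) = S := by
        rw [hS]
        apply sum_congr rfl
        intro l hl
        rw [Function.update_of_ne (mem_range.1 hl).ne]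
      rw [e]
      exact hle'

omit [DecidableEq ι] in
theorem re_inner_smul_sum (y : E) (Z : Finset ι) (β : ι → ℂ) (u : ι → E) :
    ∑ i ∈ Z, (β i * (inner ℂ y (u i) : ℂ)).re = (inner ℂ y (∑ i ∈ Z, β i • u i) : ℂ).re := by
  rw [inner_sum, Complex.re_sum]
  apply sum_congr rfl
  intro i _
  rw [inner_smul_right]

/-- the container lemma for an extremal pair -/
theorem container_aux (u : ι → E) (n : ℝ) (hu : ∀ i, ‖u i‖ ^ 2 ≤ n) (W' : Finset ι)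
    (hw0 : (0 : ℝ) < W'.card) (c : ι → Fin 4) (Φ : ℝ) (hΦ0 : 0 < Φ) (y : E)
    (hy : y = ∑ i ∈ W', phs (c i) • u i) (hy2 : ‖y‖ ^ 2 = Φ * W'.card)
    (hext : ∀ (Z : Finset ι) (γ : ι → ℂ), Z ⊆ W' → (∀ i, IsPh (γ i)) →
      ‖∑ i ∈ Z, γ i • u i‖ ^ 2 ≤ Φ * Z.card) (s : ℕ) (hs0 : (0 : ℝ) < s)
    (hs : 1024 * n * W'.card ≤ Φ * s) :
    ∃ f : ℕ → ι, (∀ l, f l ∈ W') ∧
        ∃ U ⊆ W', (W'.card : ℝ) ≤ 8 * U.card ∧
        (∑ l ∈ range s, phs (c (f l)) • u (f l)) ≠ 0 ∧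
        ∀ i ∈ U, 1 / 5 * Real.sqrt (Φ / W'.card) * ‖∑ l ∈ range s, phs (c (f l)) • u (f l)‖ ≤
          ‖(inner ℂ (∑ l ∈ range s, phs (c (f l)) • u (f l)) (u i) : ℂ)‖ := by
  have hW'ne : W'.Nonempty := card_pos.1 (by exact_mod_cast hw0)
  have hy0' : 0 < ‖y‖ := by
    rcases (norm_nonneg y).lt_or_eq with h | h
    · exact h
    · exfalso
      rw [← h] at hy2
      have : 0 < Φ * (W'.card : ℝ) := mul_pos hΦ0 hw0
      norm_num at hy2
      rcases hy2 with h1 | h1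
      · exact hΦ0.ne' h1
      · rw [h1] at hw0
        simp at hw0
  have hwc : ((W'.card : ℝ) : ℂ) ≠ 0 := by exact_mod_cast hw0.ne'
  obtain ⟨m, hm⟩ : ∃ m : E, m = (((W'.card : ℝ) : ℂ)⁻¹) • y := ⟨_, rfl⟩
  have hmy : ∑ i ∈ W', phs (c i) • u i = (W'.card : ℂ) • m := by
    have e : ((W'.card : ℂ)) = ((W'.card : ℝ) : ℂ) := by push_cast; rfl
    rw [hm, e, smul_smul, mul_inv_cancel₀ hwc, one_smul, hy]
  obtain ⟨f, hf, hfle⟩ := greedy W' hW'ne (fun i => phs (c i) • u i) n (fun i _ => by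
    rw [norm_smul, (phs_isPh _).norm, one_mul]; exact hu i) m hmy s
  refine ⟨f, hf, ?_⟩
  obtain ⟨S, hS⟩ : ∃ S : E, S = ∑ l ∈ range s, (phs (c (f l)) • u (f l) - m) := ⟨_, rfl⟩
  obtain ⟨y0, hy0⟩ : ∃ y0 : E, y0 = ∑ l ∈ range s, phs (c (f l)) • u (f l) := ⟨_, rfl⟩
  rw [← hy0]
  rw [← hS] at hfle
  obtain ⟨κ, hκ⟩ : ∃ κ : ℝ, κ * W'.card = s := ⟨s / W'.card, div_mul_cancel₀ _ hw0.ne'⟩
  have hκ0 : 0 < κ := by
    by_contra hc
    push Not at hc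
    nlinarith
  have hy0S : y0 = S + (κ : ℂ) • y := by
    have e1 : S = y0 - (s : ℂ) • m := by
      rw [hS, hy0, sum_sub_distrib, sum_const, card_range]
      congr 1
      rw [← Nat.cast_smul_eq_nsmul ℂ]
    have e2 : (s : ℂ) • m = (κ : ℂ) • y := by
      have e3 : (s : ℂ) = (κ : ℂ) * ((W'.card : ℝ) : ℂ) := by
        rw [← Complex.ofReal_mul, hκ]
        push_cast
        rfl
      rw [hm, smul_smul, e3, mul_assoc, mul_inv_cancel₀ hwc, mul_one]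
    rw [e1, e2, sub_add_cancel]
  have hS2 : ‖S‖ ^ 2 ≤ κ ^ 2 * ‖y‖ ^ 2 / 1024 := by
    refine hfle.trans ?_
    rw [hy2, le_div_iff₀ (by norm_num)]
    have h2 := mul_le_mul_of_nonneg_left hs hκ0.le
    calc (s : ℝ) * n * 1024 = κ * (1024 * n * W'.card) := by rw [← hκ]; ring
      _ ≤ κ * (Φ * s) := h2
      _ = κ ^ 2 * (Φ * W'.card) := by rw [← hκ]; ring
  have hκy0 : 0 < κ * ‖y‖ := mul_pos hκ0 hy0'
  have hSn : ‖S‖ ≤ κ * ‖y‖ / 32 := by
    apply le_of_sq_le_sq _ (by linarith)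
    rw [div_pow, mul_pow]
    refine hS2.trans (le_of_eq ?_)
    norm_num
  have hκy : ‖(κ : ℂ) • y‖ = κ * ‖y‖ := by
    rw [norm_smul, Complex.norm_real, Real.norm_of_nonneg hκ0.le]
  have hy0n : ‖y0‖ ≤ 33 / 32 * (κ * ‖y‖) := by
    rw [hy0S]
    refine (norm_add_le _ _).trans ?_
    rw [hκy]
    linarith
  have hy0ne : y0 ≠ 0 := by
    intro h0
    rw [h0] at hy0S
    have h1 : (κ : ℂ) • y = -S := by
      rw [eq_neg_iff_add_eq_zero, add_comm]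
      exact hy0S.symm
    have h2 : κ * ‖y‖ = ‖S‖ := by rw [← hκy, h1, norm_neg]
    linarith
  -- the good elements
  obtain ⟨U0, hU0⟩ : ∃ U0 : Finset ι,
      U0 = W'.filter (fun i => Φ / 2 ≤ (phs (c i) * (inner ℂ y (u i) : ℂ)).re) := ⟨_, rfl⟩
  obtain ⟨Z, hZ⟩ : ∃ Z : Finset ι, Z = U0.filter (fun i => κ * Φ / 4 < ‖(inner ℂ S (u i) : ℂ)‖) :=
    ⟨_, rfl⟩
  have hU0W : U0 ⊆ W' := by rw [hU0]; exact filter_subset _ _
  have hZU : Z ⊆ U0 := by rw [hZ]; exact filter_subset _ _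
  have hU0c : (W'.card : ℝ) / 4 ≤ U0.card := by
    have h1 : ∑ i ∈ W', (phs (c i) * (inner ℂ y (u i) : ℂ)).re = Φ * W'.card := by
      rw [re_inner_smul_sum, ← hy]
      have := inner_self_eq_norm_sq_to_K (𝕜 := ℂ) y
      rw [this, ← hy2]
      norm_cast
    have h2 : ∑ i ∈ W' \ U0, (phs (c i) * (inner ℂ y (u i) : ℂ)).re ≤ Φ / 2 * W'.card := by
      calc ∑ i ∈ W' \ U0, (phs (c i) * (inner ℂ y (u i) : ℂ)).re ≤ ∑ i ∈ W' \ U0, Φ / 2 := by
            apply sum_le_sum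
            intro i hi
            by_contra hc
            push Not at hc
            rw [hU0] at hi
            exact (mem_sdiff.1 hi).2 (mem_filter.2 ⟨(mem_sdiff.1 hi).1, hc.le⟩)
        _ = (W' \ U0).card * (Φ / 2) := by rw [sum_const, nsmul_eq_mul]
        _ ≤ W'.card * (Φ / 2) := by
            apply mul_le_mul_of_nonneg_right _ (by linarith)
            exact_mod_cast card_le_card sdiff_subset
        _ = Φ / 2 * W'.card := by ring
    have h3 : ∑ i ∈ U0, (phs (c i) * (inner ℂ y (u i) : ℂ)).re ≤ ‖y‖ * ‖∑ i ∈ U0, phs (c i) • u i‖ := by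
      rw [re_inner_smul_sum]
      exact (Complex.re_le_norm _).trans (norm_inner_le_norm _ _)
    have h4 := sum_sdiff hU0W (f := fun i => (phs (c i) * (inner ℂ y (u i) : ℂ)).re)
    rw [h1] at h4
    have h5 : Φ * W'.card / 2 ≤ ‖y‖ * ‖∑ i ∈ U0, phs (c i) • u i‖ := by linarith
    have h6 := hext U0 (fun i => phs (c i)) hU0W (fun i => phs_isPh _)
    have hpos1 : 0 < Φ * (W'.card : ℝ) := mul_pos hΦ0 hw0
    have h7 : (Φ * W'.card / 2) ^ 2 ≤ (Φ * W'.card) * (Φ * U0.card) := by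
      calc (Φ * W'.card / 2) ^ 2 ≤ (‖y‖ * ‖∑ i ∈ U0, phs (c i) • u i‖) ^ 2 :=
            pow_le_pow_left₀ (by linarith) h5 2
        _ = ‖y‖ ^ 2 * ‖∑ i ∈ U0, phs (c i) • u i‖ ^ 2 := by ring
        _ ≤ (Φ * W'.card) * (Φ * U0.card) := by
            rw [hy2]
            exact mul_le_mul_of_nonneg_left h6 hpos1.le
    have h8 : (Φ ^ 2 * (W'.card : ℝ)) * ((W'.card : ℝ) / 4) ≤ (Φ ^ 2 * (W'.card : ℝ)) * U0.card := by
      nlinarith
    exact le_of_mul_le_mul_left h8 (mul_pos (pow_pos hΦ0 2) hw0)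
  have hZc : (Z.card : ℝ) ≤ W'.card / 31 := by
    choose γ hγ hγ2 using fun i => exists_phase (inner ℂ S (u i) : ℂ)
    have h1 : 7 / 10 * (κ * Φ / 4) * Z.card ≤ ‖S‖ * ‖∑ i ∈ Z, γ i • u i‖ := by
      calc 7 / 10 * (κ * Φ / 4) * Z.card = ∑ i ∈ Z, 7 / 10 * (κ * Φ / 4) := by
            rw [sum_const, nsmul_eq_mul]; ring
        _ ≤ ∑ i ∈ Z, (γ i * (inner ℂ S (u i) : ℂ)).re := by
            apply sum_le_sum
            intro i hi
            rw [hZ] at hi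
            exact (mul_le_mul_of_nonneg_left (mem_filter.1 hi).2.le (by norm_num)).trans (hγ2 i)
        _ = (inner ℂ S (∑ i ∈ Z, γ i • u i) : ℂ).re := re_inner_smul_sum _ _ _ _
        _ ≤ _ := (Complex.re_le_norm _).trans (norm_inner_le_norm _ _)
    have h2 := hext Z γ (hZU.trans hU0W) hγ
    have hκΦ : 0 < κ * Φ := mul_pos hκ0 hΦ0
    have h3 : (7 / 10 * (κ * Φ / 4) * Z.card) ^ 2 ≤
        (κ ^ 2 * (Φ * W'.card) / 1024) * (Φ * Z.card) := by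
      calc (7 / 10 * (κ * Φ / 4) * Z.card) ^ 2 ≤ (‖S‖ * ‖∑ i ∈ Z, γ i • u i‖) ^ 2 :=
            pow_le_pow_left₀ (mul_nonneg (by linarith) (Nat.cast_nonneg _)) h1 2
        _ = ‖S‖ ^ 2 * ‖∑ i ∈ Z, γ i • u i‖ ^ 2 := by ring
        _ ≤ (κ ^ 2 * ‖y‖ ^ 2 / 1024) * (Φ * Z.card) :=
            mul_le_mul hS2 h2 (sq_nonneg _) (le_trans (sq_nonneg _) hS2)
        _ = _ := by rw [hy2]
    rcases Nat.eq_zero_or_pos Z.card with h0 | hpos
    · rw [h0]; push_cast; linarith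
    · have hZ0 : (0 : ℝ) < Z.card := by exact_mod_cast hpos
      have hpp : 0 < κ ^ 2 * Φ ^ 2 * Z.card :=
        mul_pos (mul_pos (pow_pos hκ0 2) (pow_pos hΦ0 2)) hZ0
      have h4 : (κ ^ 2 * Φ ^ 2 * Z.card) * (Z.card : ℝ) ≤ (κ ^ 2 * Φ ^ 2 * Z.card) * (W'.card / 31) := by
        nlinarith [mul_pos hpp hw0]
      exact le_of_mul_le_mul_left h4 hpp
  refine ⟨U0 \ Z, sdiff_subset.trans hU0W, ?_, hy0ne, ?_⟩
  · have h1 : ((U0 \ Z).card : ℝ) = U0.card - Z.card := by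
      rw [card_sdiff_of_subset hZU, Nat.cast_sub (card_le_card hZU)]
    rw [h1]
    linarith
  · intro i hi
    rw [mem_sdiff] at hi
    have hi1 : Φ / 2 ≤ (phs (c i) * (inner ℂ y (u i) : ℂ)).re := by
      have := hi.1
      rw [hU0] at this
      exact (mem_filter.1 this).2
    have hi2 : ‖(inner ℂ S (u i) : ℂ)‖ ≤ κ * Φ / 4 := by
      by_contra hc
      push Not at hc
      apply hi.2
      rw [hZ]
      exact mem_filter.2 ⟨hi.1, hc⟩
    have h1 : Φ / 2 ≤ ‖(inner ℂ y (u i) : ℂ)‖ := by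
      refine hi1.trans ((Complex.re_le_norm _).trans ?_)
      rw [norm_mul, (phs_isPh _).norm, one_mul]
    have h2 : κ * Φ / 4 ≤ ‖(inner ℂ y0 (u i) : ℂ)‖ := by
      rw [hy0S, inner_add_left, inner_smul_left]
      have e : ‖(starRingEnd ℂ) (κ : ℂ) * (inner ℂ y (u i) : ℂ)‖ = κ * ‖(inner ℂ y (u i) : ℂ)‖ := by
        rw [norm_mul, Complex.conj_ofReal, Complex.norm_real, Real.norm_of_nonneg hκ0.le]
      have h4 : ‖(starRingEnd ℂ) (κ : ℂ) * (inner ℂ y (u i) : ℂ)‖ ≤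
          ‖(inner ℂ S (u i) : ℂ) + (starRingEnd ℂ) (κ : ℂ) * (inner ℂ y (u i) : ℂ)‖ +
            ‖(inner ℂ S (u i) : ℂ)‖ := by
        have := norm_sub_le ((inner ℂ S (u i) : ℂ) + (starRingEnd ℂ) (κ : ℂ) * (inner ℂ y (u i) : ℂ))
          (inner ℂ S (u i) : ℂ)
        rwa [add_sub_cancel_left] at this
      rw [e] at h4
      have h5 : κ * (Φ / 2) ≤ κ * ‖(inner ℂ y (u i) : ℂ)‖ := mul_le_mul_of_nonneg_left h1 hκ0.le
      linarith
    refine le_trans ?_ h2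
    have hyn : ‖y‖ = Real.sqrt (Φ * W'.card) := by
      rw [← hy2, Real.sqrt_sq (norm_nonneg _)]
    have hq0 : 0 ≤ Φ / (W'.card : ℝ) := (div_pos hΦ0 hw0).le
    have h6 : Real.sqrt (Φ / W'.card) * ‖y‖ = Φ := by
      rw [hyn, ← Real.sqrt_mul hq0]
      have : Φ / (W'.card : ℝ) * (Φ * W'.card) = Φ ^ 2 := by rw [div_mul_eq_mul_div, div_eq_iff hw0.ne']; ring
      rw [this, Real.sqrt_sq hΦ0.le]
    calc 1 / 5 * Real.sqrt (Φ / W'.card) * ‖y0‖ ≤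
          1 / 5 * Real.sqrt (Φ / W'.card) * (33 / 32 * (κ * ‖y‖)) :=
          mul_le_mul_of_nonneg_left hy0n (mul_nonneg (by norm_num) (Real.sqrt_nonneg _))
      _ = 33 / 160 * κ * (Real.sqrt (Φ / W'.card) * ‖y‖) := by ring
      _ = 33 / 160 * (κ * Φ) := by rw [h6]; ring
      _ ≤ κ * Φ / 4 := by
          have : 0 < κ * Φ := mul_pos hκ0 hΦ0
          linarith

/-- **The container lemma.** -/
theorem container [Fintype ι] (u : ι → E) (n : ℝ) (hu : ∀ i, ‖u i‖ ^ 2 ≤ n) (W : Finset ι)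
    (hW : W.Nonempty) (β : ι → ℂ) (hβ : ∀ i, IsPh (β i)) (Φ0 : ℝ) (hΦ0 : 0 < Φ0)
    (h : Φ0 * W.card ≤ ‖∑ i ∈ W, β i • u i‖ ^ 2) :
    ∃ (W' : Finset ι) (Φ : ℝ) (c : ι → Fin 4), W' ⊆ W ∧ W'.Nonempty ∧ Φ0 ≤ Φ ∧ Φ ≤ n * W'.card ∧
      ∀ s : ℕ, 1024 * n * W'.card ≤ Φ * s → ∃ f : ℕ → ι, (∀ l, f l ∈ W') ∧
        ∃ U ⊆ W', (W'.card : ℝ) ≤ 8 * U.card ∧
        (∑ l ∈ range s, phs (c (f l)) • u (f l)) ≠ 0 ∧
        ∀ i ∈ U, 1 / 5 * Real.sqrt (Φ / W'.card) * ‖∑ l ∈ range s, phs (c (f l)) • u (f l)‖ ≤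
          ‖(inner ℂ (∑ l ∈ range s, phs (c (f l)) • u (f l)) (u i) : ℂ)‖ := by
  classical
  -- the extremal pair
  choose k hk using fun i => exists_phs (hβ i)
  have hPne : ((W.powerset.filter (fun S => S.Nonempty)) ×ˢ (univ : Finset (ι → Fin 4))).Nonempty :=
    ⟨(W, k), mem_product.2 ⟨mem_filter.2 ⟨mem_powerset_self _, hW⟩, mem_univ _⟩⟩
  obtain ⟨⟨W', c⟩, hmem, hmax⟩ := exists_max_image
    ((W.powerset.filter (fun S => S.Nonempty)) ×ˢ (univ : Finset (ι → Fin 4)))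
    (fun p => ‖∑ i ∈ p.1, phs (p.2 i) • u i‖ ^ 2 / p.1.card) hPne
  rw [mem_product, mem_filter, mem_powerset] at hmem
  have hW'W : W' ⊆ W := hmem.1.1
  have hW'ne : W'.Nonempty := hmem.1.2
  have hw0 : (0 : ℝ) < W'.card := by exact_mod_cast card_pos.2 hW'ne
  obtain ⟨y, hy⟩ : ∃ y : E, y = ∑ i ∈ W', phs (c i) • u i := ⟨_, rfl⟩
  obtain ⟨Φ, hΦ⟩ : ∃ Φ : ℝ, Φ = ‖y‖ ^ 2 / W'.card := ⟨_, rfl⟩
  have hy2 : ‖y‖ ^ 2 = Φ * W'.card := by rw [hΦ, div_mul_cancel₀ _ hw0.ne']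
  have hext : ∀ (Z : Finset ι) (γ : ι → ℂ), Z ⊆ W → (∀ i, IsPh (γ i)) →
      ‖∑ i ∈ Z, γ i • u i‖ ^ 2 ≤ Φ * Z.card := by
    intro Z γ hZ hγ
    rcases Z.eq_empty_or_nonempty with h0 | hne
    · rw [h0]; simp
    · choose k' hk' using fun i => exists_phs (hγ i)
      have h1 := hmax (Z, k') (mem_product.2 ⟨mem_filter.2 ⟨mem_powerset.2 hZ, hne⟩, mem_univ _⟩)
      have hZ0 : (0 : ℝ) < Z.card := by exact_mod_cast card_pos.2 hne
      have h2 : ‖∑ i ∈ Z, phs (k' i) • u i‖ ^ 2 / Z.card ≤ Φ := by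
        rw [hΦ, hy]
        exact h1
      rw [div_le_iff₀ hZ0] at h2
      have e : ∑ i ∈ Z, γ i • u i = ∑ i ∈ Z, phs (k' i) • u i :=
        sum_congr rfl fun i _ => by rw [hk' i]
      rw [e]
      exact h2
  clear hΦ
  have hΦΦ : Φ0 ≤ Φ := by
    have h1 := hext W β (Subset.refl _) hβ
    have hWc : (0 : ℝ) < W.card := by exact_mod_cast card_pos.2 hW
    exact le_of_mul_le_mul_right (h.trans h1) hWc
  have hΦ0' : 0 < Φ := lt_of_lt_of_le hΦ0 hΦΦ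
  have hn0 : 0 ≤ n := by
    obtain ⟨i, _⟩ := hW'ne
    exact le_trans (sq_nonneg _) (hu i)
  have hΦn : Φ ≤ n * W'.card := by
    have h1 : ‖y‖ ≤ W'.card * Real.sqrt n := by
      rw [hy]
      refine (norm_sum_le _ _).trans ?_
      calc ∑ i ∈ W', ‖phs (c i) • u i‖ ≤ ∑ i ∈ W', Real.sqrt n := by
            apply sum_le_sum
            intro i _
            rw [norm_smul, (phs_isPh _).norm, one_mul]
            exact Real.le_sqrt_of_sq_le (hu i)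
        _ = W'.card * Real.sqrt n := by rw [sum_const, nsmul_eq_mul]
    have h2 : Φ * W'.card ≤ (n * W'.card) * W'.card := by
      calc Φ * W'.card = ‖y‖ ^ 2 := hy2.symm
        _ ≤ (W'.card * Real.sqrt n) ^ 2 := pow_le_pow_left₀ (norm_nonneg _) h1 2
        _ = n * W'.card * W'.card := by rw [mul_pow, Real.sq_sqrt hn0]; ring
    exact le_of_mul_le_mul_right h2 hw0
  refine ⟨W', Φ, c, hW'W, hW'ne, hΦΦ, hΦn, ?_⟩
  intro s hs
  have hnpos : 0 < n := by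
    by_contra hc
    push Not at hc
    nlinarith
  have hs0 : (0 : ℝ) < s := by
    by_contra hc
    push Not at hc
    have : 0 < n * (W'.card : ℝ) := mul_pos hnpos hw0
    nlinarith
  exact container_aux u n hu W' hw0 c Φ hΦ0' y hy hy2
    (fun Z γ hZ hγ => hext Z γ (hZ.trans hW'W) hγ) s hs0 hs

end Pool.Agent.Y959.Smp
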