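import Pool.Agent.Y959.Smp.Pr

set_option autoImplicit false

/-!
# The choice of the parameters of the sampling theorem
-/

namespace Pool.Agent.Y959.Smp

open Finset

/-- the constant -/
noncomputable def CC (ε A B : ℝ) : ℝ := 32800 * (1 + (A + B) / ε)

theorem CC_ge (ε A B : ℝ) (hε : 0 < ε) (hA : 0 ≤ A) (hB : 0 ≤ B) : 32800 ≤ CC ε A B := by
  unfold CC
  have : 0 ≤ (A + B) / ε := by positivity
  linarith

theorem par (ε A B : ℝ) (hε : 0 < ε) (hA : 0 ≤ A) (hB : 0 ≤ B) (N M : ℕ) (hN : 1 ≤ N) (hM : 1 ≤ M)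
    (hMB : (M : ℝ) ≤ (N : ℝ) ^ B) (w : ℕ) (hw : CC ε A B ≤ w) :
    (4 * M : ℝ) ^ ss (CC ε A B) w * ((4 * (N : ℝ) ^ ε)⁻¹) ^ mm w * M ≤ (N : ℝ) ^ (-A) := by
  have hC := CC_ge ε A B hε hA hB
  have hCε : CC ε A B * ε = 32800 * (ε + A + B) := by
    unfold CC
    field_simp
    ring
  obtain ⟨C, hCd⟩ : ∃ C, C = CC ε A B := ⟨_, rfl⟩
  rw [← hCd] at hC hCε hw ⊢
  have hC0 : 0 < C := by linarith
  have hN1 : (1 : ℝ) ≤ N := by exact_mod_cast hN
  have hN0 : (0 : ℝ) < N := by linarith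
  have hM1 : (1 : ℝ) ≤ M := by exact_mod_cast hM
  have hM0 : (0 : ℝ) < M := by linarith
  obtain ⟨l, hl⟩ : ∃ l, l = Real.log N := ⟨_, rfl⟩
  have hl0 : 0 ≤ l := by rw [hl]; exact Real.log_nonneg hN1
  obtain ⟨g, hg⟩ : ∃ g, g = Real.log M := ⟨_, rfl⟩
  have hg0 : 0 ≤ g := by rw [hg]; exact Real.log_nonneg hM1
  have hgB : g ≤ B * l := by
    have := Real.log_le_log hM0 hMB
    rw [Real.log_rpow hN0] at this
    rw [hg, hl]
    exact this
  obtain ⟨a, ha⟩ : ∃ a, a = Real.log 4 := ⟨_, rfl⟩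
  have ha0 : 0 < a := by rw [ha]; exact Real.log_pos (by norm_num)
  have hθ0 : 0 < 4 * (N : ℝ) ^ ε := by positivity
  have e1 : (4 * M : ℝ) ^ ss C w = Real.exp ((ss C w : ℕ) * (a + g)) := by
    rw [← Real.exp_log (show (0:ℝ) < 4 * M by positivity), ← Real.exp_nat_mul,
      Real.log_mul (by norm_num) hM0.ne', ← ha, ← hg]
  have e2 : ((4 * (N : ℝ) ^ ε)⁻¹) ^ mm w = Real.exp (-((mm w : ℕ) * (a + ε * l))) := by
    rw [inv_pow, ← Real.exp_log (show 0 < (4 * (N : ℝ) ^ ε) ^ mm w by positivity), ← Real.exp_neg,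
      Real.log_pow, Real.log_mul (by norm_num) (by positivity), Real.log_rpow hN0, ← ha, ← hl]
  have e3 : (M : ℝ) = Real.exp g := by rw [hg, Real.exp_log hM0]
  have e4 : (N : ℝ) ^ (-A) = Real.exp (-(A * l)) := by
    rw [Real.rpow_def_of_pos hN0, ← hl]
    congr 1
    ring
  have e5 : (4 * M : ℝ) ^ ss C w * ((4 * (N : ℝ) ^ ε)⁻¹) ^ mm w * M =
      Real.exp ((ss C w : ℕ) * (a + g) + -((mm w : ℕ) * (a + ε * l)) + g) := by
    rw [Real.exp_add, Real.exp_add, ← e1, ← e2, ← e3]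
  rw [e5, e4, Real.exp_le_exp]
  -- the inequality between the exponents
  have hw0 : (0 : ℝ) < w := by linarith
  have hs : C * (ss C w : ℕ) ≤ 1025 * w := by
    have h5 : ((ss C w : ℕ) : ℝ) < 1024 * (w : ℝ) / C + 1 := Nat.ceil_lt_add_one (by positivity)
    have h6 : C * ((ss C w : ℕ) : ℝ) ≤ C * (1024 * (w : ℝ) / C + 1) :=
      mul_le_mul_of_nonneg_left h5.le hC0.le
    have h7 : C * (1024 * (w : ℝ) / C + 1) = 1024 * w + C := by
      rw [mul_add, mul_div_cancel₀ _ hC0.ne', mul_one]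
    linarith
  have hm : (w : ℝ) ≤ 16 * (mm w : ℕ) := by
    have : w ≤ 16 * mm w := by unfold mm; omega
    exact_mod_cast this
  obtain ⟨s, hsd⟩ : ∃ s : ℝ, s = (ss C w : ℕ) := ⟨_, rfl⟩
  obtain ⟨m, hmd⟩ : ∃ m : ℝ, m = (mm w : ℕ) := ⟨_, rfl⟩
  rw [← hsd, ← hmd]
  rw [← hsd] at hs
  rw [← hmd] at hm
  have hs0 : 0 ≤ s := by rw [hsd]; exact Nat.cast_nonneg _
  -- s a ≤ w a / 32
  have h1 : s * a ≤ w * a / 32 := by
    have h2 : 32800 * s ≤ C * s := mul_le_mul_of_nonneg_right hC hs0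
    have h3 : 32 * s ≤ w := by linarith
    nlinarith
  have h2 : s * g ≤ w * (ε * l) / 32 := by
    have h3 : s * g ≤ s * (B * l) := mul_le_mul_of_nonneg_left hgB hs0
    have h4 : s * (32 * B) ≤ w * ε := by
      have h5 : C * (s * (32 * B)) ≤ C * (w * ε) := by
        have h6 : C * s * (32 * B) ≤ 1025 * w * (32 * B) :=
          mul_le_mul_of_nonneg_right hs (by positivity)
        have h7 : 32800 * B * w ≤ C * ε * w := by
          apply mul_le_mul_of_nonneg_right _ hw0.le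
          rw [hCε]
          linarith
        calc C * (s * (32 * B)) = C * s * (32 * B) := by ring
          _ ≤ 1025 * w * (32 * B) := h6
          _ = 32800 * B * w := by ring
          _ ≤ C * ε * w := h7
          _ = C * (w * ε) := by ring
      exact le_of_mul_le_mul_left h5 hC0
    have h6 : s * (32 * B) * l ≤ w * ε * l := mul_le_mul_of_nonneg_right h4 hl0
    linarith
  have h3 : w * (a + ε * l) / 16 ≤ m * (a + ε * l) := by
    have h4 : 0 ≤ a + ε * l := by positivity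
    have := mul_le_mul_of_nonneg_right hm h4
    linarith
  have h4 : (A + B) * l ≤ w * (ε * l) / 32 := by
    have h5 : C * ε * l ≤ w * ε * l := by
      apply mul_le_mul_of_nonneg_right _ hl0
      exact mul_le_mul_of_nonneg_right hw hε.le
    rw [hCε] at h5
    have h6 : 0 ≤ (ε + A + B) * l := by positivity
    have h7 : 0 ≤ ε * l := by positivity
    have h8 : (ε + A + B) * l = ε * l + (A + B) * l := by ring
    nlinarith
  have h5 : 0 ≤ w * a := by positivity
  have h6 : w * (a + ε * l) / 16 = w * a / 16 + w * (ε * l) / 16 := by ring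
  have h7 : s * (a + g) = s * a + s * g := by ring
  have h8 : (A + B) * l = A * l + B * l := by ring
  linarith

end Pool.Agent.Y959.Smp
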