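import Pool.Agent.Y959.Smp.Det

set_option autoImplicit false

/-!
# The sampling theorem (abstract form)
-/

namespace Pool.Agent.Y959.Smp

open Finset Pool.Agent.Y959.Her

variable {ι E : Type*} [Fintype ι] [DecidableEq ι] [NormedAddCommGroup E] [InnerProductSpace ℂ E]
  {L : ℕ}

/-- the vector of a code -/
noncomputable def Yv (v : ι → Fin L → E) {s : ℕ} (j : Fin s → ι × Fin 4) (ω : ι → Fin L) : E :=
  ∑ l, phs (j l).2 • v (j l).1 (ω (j l).1)

/-- exceedance -/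
def Exc (r : ℝ → ℝ) (τ : ℝ) (y z : E) : Prop :=
  y ≠ 0 ∧ ∃ lam : ℝ, 0 < lam ∧ r lam ≤ τ ∧ lam * ‖y‖ ≤ ‖(inner ℂ y z : ℂ)‖

omit [Fintype ι] [DecidableEq ι] in
open Classical in
theorem exc_count (v : ι → Fin L → E) (r : ℝ → ℝ)
    (hr : ∀ lam : ℝ, 0 < lam → ∀ (i : ι) (y : E), y ≠ 0 →
      ((univ.filter (fun x : Fin L => lam * ‖y‖ ≤ ‖(inner ℂ y (v i x) : ℂ)‖)).card : ℝ) ≤ r lam * L)
    (τ : ℝ) (hτ : 0 ≤ τ) (i : ι) (y : E) :
    ((univ.filter (fun x : Fin L => Exc r τ y (v i x))).card : ℝ) ≤ τ * L := by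
  rcases (univ.filter (fun x : Fin L => Exc r τ y (v i x))).eq_empty_or_nonempty with h0 | hne
  · rw [h0, card_empty]
    push_cast
    exact mul_nonneg hτ (Nat.cast_nonneg _)
  · have hy : y ≠ 0 := by
      obtain ⟨x, hx⟩ := hne
      exact (mem_filter.1 hx).2.1
    have hw : ∀ x : Fin L, ∃ lam : ℝ, x ∈ univ.filter (fun x : Fin L => Exc r τ y (v i x)) →
        (0 < lam ∧ r lam ≤ τ ∧ lam * ‖y‖ ≤ ‖(inner ℂ y (v i x) : ℂ)‖) := by
      intro x
      by_cases hx : x ∈ univ.filter (fun x : Fin L => Exc r τ y (v i x))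
      · obtain ⟨lam, h⟩ := (mem_filter.1 hx).2.2
        exact ⟨lam, fun _ => h⟩
      · exact ⟨0, fun h => absurd h hx⟩
    choose lam hlam using hw
    obtain ⟨x0, hx0, hmin⟩ := exists_min_image _ lam hne
    have h1 := hr (lam x0) (hlam x0 hx0).1 i y hy
    have h2 : (univ.filter (fun x : Fin L => Exc r τ y (v i x))).card ≤
        (univ.filter (fun x : Fin L => lam x0 * ‖y‖ ≤ ‖(inner ℂ y (v i x) : ℂ)‖)).card := by
      apply card_le_card
      intro x hx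
      rw [mem_filter]
      refine ⟨mem_univ _, le_trans ?_ (hlam x hx).2.2⟩
      exact mul_le_mul_of_nonneg_right (hmin x hx) (norm_nonneg _)
    calc ((univ.filter (fun x : Fin L => Exc r τ y (v i x))).card : ℝ)
        ≤ ((univ.filter (fun x : Fin L => lam x0 * ‖y‖ ≤ ‖(inner ℂ y (v i x) : ℂ)‖)).card : ℝ) := by
          exact_mod_cast h2
      _ ≤ r (lam x0) * L := h1
      _ ≤ τ * L := mul_le_mul_of_nonneg_right (hlam x0 hx0).2.1 (Nat.cast_nonneg _)

/-- the bad event of size `(s, m)` and level `τ` -/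
def Bad (v : ι → Fin L → E) (r : ℝ → ℝ) (s m : ℕ) (τ : ℝ) (ω : ι → Fin L) : Prop :=
  ∃ (j : Fin s → ι × Fin 4) (Q : Finset ι), Q.card = m ∧ (∀ l, (j l).1 ∉ Q) ∧
    ∀ i ∈ Q, Exc r τ (Yv v j ω) (v i (ω i))

omit [Fintype ι] in
theorem Yv_update (v : ι → Fin L → E) {s : ℕ} (j : Fin s → ι × Fin 4) (ω : ι → Fin L) (i : ι)
    (hi : ∀ l, (j l).1 ≠ i) (u : Fin L) : Yv v j (Function.update ω i u) = Yv v j ω := by
  unfold Yv
  apply sum_congr rfl
  intro l _
  rw [Function.update_of_ne (hi l)]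

theorem fact_bound (m : ℕ) (x : ℝ) (hx : 0 ≤ x) (θ : ℝ) (hθ : 0 < θ) (h : 3 * x * θ ≤ m) :
    x ^ m / m.factorial ≤ (θ⁻¹) ^ m := by
  rcases Nat.eq_zero_or_pos m with h0 | hm
  · subst h0
    simp
  have hm0 : (0 : ℝ) < m := by exact_mod_cast hm
  have h1 := Real.pow_div_factorial_le_exp (m : ℝ) hm0.le m
  have h2 : Real.exp (m : ℝ) ≤ 3 ^ m := by
    have : Real.exp (m : ℝ) = Real.exp 1 ^ m := by rw [← Real.exp_nat_mul, mul_one]
    rw [this]
    exact pow_le_pow_left₀ (Real.exp_pos 1).le (by linarith [Real.exp_one_lt_d9]) m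
  have hf : (0 : ℝ) < m.factorial := by exact_mod_cast Nat.factorial_pos m
  have h3 : (m : ℝ) ^ m ≤ 3 ^ m * m.factorial := by
    rw [div_le_iff₀ hf] at h1
    exact h1.trans (mul_le_mul_of_nonneg_right h2 hf.le)
  have h4 : (3 * x * θ) ^ m ≤ (m : ℝ) ^ m := pow_le_pow_left₀ (by positivity) h m
  have h5 : 3 ^ m * (x ^ m * θ ^ m) ≤ 3 ^ m * (m.factorial : ℝ) := by
    calc (3 : ℝ) ^ m * (x ^ m * θ ^ m) = (3 * x * θ) ^ m := by rw [mul_pow, mul_pow]; ring
      _ ≤ _ := h4.trans h3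
  have h6 : x ^ m * θ ^ m ≤ m.factorial := le_of_mul_le_mul_left h5 (by positivity)
  rw [div_le_iff₀ hf, inv_pow, inv_mul_eq_div, le_div_iff₀ (by positivity)]
  exact h6

open Classical in
theorem bad_count (v : ι → Fin L → E) (r : ℝ → ℝ)
    (hr : ∀ lam : ℝ, 0 < lam → ∀ (i : ι) (y : E), y ≠ 0 →
      ((univ.filter (fun x : Fin L => lam * ‖y‖ ≤ ‖(inner ℂ y (v i x) : ℂ)‖)).card : ℝ) ≤ r lam * L)
    (s m : ℕ) (τ θ : ℝ) (hτ : 0 ≤ τ) (hθ : 0 < θ) (h : 3 * (Fintype.card ι * τ) * θ ≤ m) :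
    ((univ.filter (fun ω : ι → Fin L => Bad v r s m τ ω)).card : ℝ) ≤
      (4 * Fintype.card ι : ℝ) ^ s * (θ⁻¹) ^ m * (L : ℝ) ^ Fintype.card ι := by
  have hsub : (univ.filter (fun ω : ι → Fin L => Bad v r s m τ ω)) ⊆
      (univ : Finset (Fin s → ι × Fin 4)).biUnion (fun j =>
      ((powersetCard m (univ : Finset ι)).filter (fun Q => ∀ l, (j l).1 ∉ Q)).biUnion
        (fun Q => univ.filter (fun ω : ι → Fin L => ∀ i ∈ Q, Exc r τ (Yv v j ω) (v i (ω i))))) := by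
    intro ω hω
    obtain ⟨j, Q, h1, h2, h3⟩ := (mem_filter.1 hω).2
    rw [mem_biUnion]
    refine ⟨j, mem_univ _, ?_⟩
    rw [mem_biUnion]
    exact ⟨Q, mem_filter.2 ⟨mem_powersetCard.2 ⟨subset_univ _, h1⟩, h2⟩,
      mem_filter.2 ⟨mem_univ _, h3⟩⟩
  have h1 : ∀ j : Fin s → ι × Fin 4,
      ∀ Q ∈ (powersetCard m (univ : Finset ι)).filter (fun Q => ∀ l, (j l).1 ∉ Q),
      ((univ.filter (fun ω : ι → Fin L => ∀ i ∈ Q, Exc r τ (Yv v j ω) (v i (ω i)))).card : ℝ) ≤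
        τ ^ m * (L : ℝ) ^ Fintype.card ι := by
    intro j Q hQ
    rw [mem_filter, mem_powersetCard] at hQ
    rw [← hQ.1.2]
    refine prod_count τ hτ Q (fun i ω u => Exc r τ (Yv v j ω) (v i u)) ?_ ?_
    · intro i hi i' _ ω u u'
      rw [Yv_update v j ω i (fun l e => hQ.2 l (by rw [e]; exact hi))]
    · intro i _ ω
      exact exc_count v r hr τ hτ i _
  have h2 : ∀ j : Fin s → ι × Fin 4,
      (((((powersetCard m (univ : Finset ι)).filter (fun Q => ∀ l, (j l).1 ∉ Q)).biUnion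
        (fun Q => univ.filter (fun ω : ι → Fin L => ∀ i ∈ Q, Exc r τ (Yv v j ω) (v i (ω i))))).card : ℕ) : ℝ) ≤
        (θ⁻¹) ^ m * (L : ℝ) ^ Fintype.card ι := by
    intro j
    have h3 : (((((powersetCard m (univ : Finset ι)).filter (fun Q => ∀ l, (j l).1 ∉ Q)).biUnion
        (fun Q => univ.filter (fun ω : ι → Fin L => ∀ i ∈ Q, Exc r τ (Yv v j ω) (v i (ω i))))).card : ℕ) : ℝ) ≤
        ∑ Q ∈ (powersetCard m (univ : Finset ι)).filter (fun Q => ∀ l, (j l).1 ∉ Q),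
          ((univ.filter (fun ω : ι → Fin L => ∀ i ∈ Q, Exc r τ (Yv v j ω) (v i (ω i)))).card : ℝ) := by
      exact_mod_cast card_biUnion_le
    refine h3.trans ((sum_le_sum (h1 j)).trans ?_)
    rw [sum_const, nsmul_eq_mul]
    have h4 : ((((powersetCard m (univ : Finset ι)).filter (fun Q => ∀ l, (j l).1 ∉ Q)).card : ℕ) : ℝ)
        ≤ (Fintype.card ι : ℝ) ^ m / m.factorial := by
      have h5 : (((powersetCard m (univ : Finset ι)).filter (fun Q => ∀ l, (j l).1 ∉ Q)).card : ℝ) ≤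
          ((Fintype.card ι).choose m : ℝ) := by
        have := card_filter_le (powersetCard m (univ : Finset ι)) (fun Q => ∀ l, (j l).1 ∉ Q)
        rw [card_powersetCard, card_univ] at this
        exact_mod_cast this
      exact h5.trans (Nat.choose_le_pow_div m (Fintype.card ι))
    have hL : (0 : ℝ) ≤ (L : ℝ) ^ Fintype.card ι := by positivity
    have h6 := fact_bound m (Fintype.card ι * τ) (mul_nonneg (Nat.cast_nonneg _) hτ) θ hθ h
    calc ((((powersetCard m (univ : Finset ι)).filter (fun Q => ∀ l, (j l).1 ∉ Q)).card : ℕ) : ℝ) *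
          (τ ^ m * (L : ℝ) ^ Fintype.card ι)
        ≤ ((Fintype.card ι : ℝ) ^ m / m.factorial) * (τ ^ m * (L : ℝ) ^ Fintype.card ι) :=
          mul_le_mul_of_nonneg_right h4 (mul_nonneg (pow_nonneg hτ _) hL)
      _ = ((Fintype.card ι * τ) ^ m / m.factorial) * (L : ℝ) ^ Fintype.card ι := by
          rw [mul_pow]; ring
      _ ≤ (θ⁻¹) ^ m * (L : ℝ) ^ Fintype.card ι := mul_le_mul_of_nonneg_right h6 hL
  have h3 : ((univ.filter (fun ω : ι → Fin L => Bad v r s m τ ω)).card : ℝ) ≤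
      ∑ j : Fin s → ι × Fin 4,
      (((((powersetCard m (univ : Finset ι)).filter (fun Q => ∀ l, (j l).1 ∉ Q)).biUnion
        (fun Q => univ.filter (fun ω : ι → Fin L => ∀ i ∈ Q, Exc r τ (Yv v j ω) (v i (ω i))))).card : ℕ) : ℝ) := by
    exact_mod_cast (card_le_card hsub).trans card_biUnion_le
  refine h3.trans ((sum_le_sum fun j _ => h2 j).trans ?_)
  rw [sum_const, nsmul_eq_mul, card_univ, Fintype.card_fun, Fintype.card_prod, Fintype.card_fin,
    Fintype.card_fin]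
  push_cast
  rw [mul_comm (4 : ℝ)]
  exact le_of_eq (by ring)

/-- the length of the summary -/
noncomputable def ss (C : ℝ) (w : ℕ) : ℕ := ⌈1024 * (w : ℝ) / C⌉₊

/-- the number of the exceedances -/
def mm (w : ℕ) : ℕ := (w + 15) / 16

/-- the level -/
noncomputable def tt (M : ℕ) (θ : ℝ) (w : ℕ) : ℝ := mm w / (3 * M * θ)

/-- **The conclusion.** -/
def Smpl (u : ι → E) (n : ℝ) (r : ℝ → ℝ) (C θ : ℝ) : Prop :=
  ∀ (x : E) (lam : ℝ) (W : Finset ι), x ≠ 0 → 0 < lam →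
    (∀ i ∈ W, lam * ‖x‖ ≤ ‖(inner ℂ x (u i) : ℂ)‖) →
    lam ^ 2 * W.card ≤ 3 * C * n ∨ (W.card : ℝ) ≤ 48 * θ * Fintype.card ι * r (lam / 8)

theorem not_smpl (v : ι → Fin L → E) (n : ℝ) (hv : ∀ i x, ‖v i x‖ ^ 2 ≤ n) (r : ℝ → ℝ)
    (hanti : ∀ x y : ℝ, 0 < x → x ≤ y → y ^ 2 * r y ≤ x ^ 2 * r x)
    (C θ : ℝ) (hC : 32800 ≤ C) (hθ : 0 < θ) (ω : ι → Fin L)
    (h : ¬ Smpl (fun i => v i (ω i)) n r C θ) :
    ∃ w ∈ (Icc 1 (Fintype.card ι)).filter (fun w : ℕ => C ≤ w),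
      Bad v r (ss C w) (mm w) (tt (Fintype.card ι) θ w) ω := by
  unfold Smpl at h
  push Not at h
  obtain ⟨x, lam, W, hx, hlam, hW, h1, h2⟩ := h
  have hC0 : 0 < C := by linarith
  have hxn : 0 < ‖x‖ := norm_pos_iff.2 hx
  have hWne : W.Nonempty := by
    rw [nonempty_iff_ne_empty]
    intro h0
    rw [h0] at h1
    simp only [card_empty, Nat.cast_zero, mul_zero] at h1
    rcases isEmpty_or_nonempty ι with hι | ⟨⟨i⟩⟩
    · rw [h0] at h2
      simp at h2
    · have : 0 ≤ n := le_trans (sq_nonneg _) (hv i (ω i))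
      have : 0 ≤ 3 * C * n := by positivity
      linarith
  have hW0 : (0 : ℝ) < W.card := by exact_mod_cast card_pos.2 hWne
  choose β hβ hβ2 using fun i => exists_phase (inner ℂ x (v i (ω i)) : ℂ)
  have h3 : 7 / 10 * lam * W.card ≤ ‖∑ i ∈ W, β i • v i (ω i)‖ := by
    have h4 : ‖x‖ * (7 / 10 * lam * W.card) ≤ ‖x‖ * ‖∑ i ∈ W, β i • v i (ω i)‖ := by
      calc ‖x‖ * (7 / 10 * lam * W.card) = ∑ i ∈ W, 7 / 10 * (lam * ‖x‖) := by
            rw [sum_const, nsmul_eq_mul]; ring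
        _ ≤ ∑ i ∈ W, (β i * (inner ℂ x (v i (ω i)) : ℂ)).re := by
            apply sum_le_sum
            intro i hi
            exact (mul_le_mul_of_nonneg_left (hW i hi) (by norm_num)).trans (hβ2 i)
        _ = (inner ℂ x (∑ i ∈ W, β i • v i (ω i)) : ℂ).re :=
            re_inner_smul_sum x W β (fun i => v i (ω i))
        _ ≤ _ := (Complex.re_le_norm _).trans (norm_inner_le_norm _ _)
    exact le_of_mul_le_mul_left h4 hxn
  have hΦ0 : 0 < 49 / 100 * lam ^ 2 * W.card := by positivity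
  have h4 : 49 / 100 * lam ^ 2 * W.card * W.card ≤ ‖∑ i ∈ W, β i • v i (ω i)‖ ^ 2 := by
    calc 49 / 100 * lam ^ 2 * W.card * W.card = (7 / 10 * lam * W.card) ^ 2 := by ring
      _ ≤ _ := pow_le_pow_left₀ (by positivity) h3 2
  obtain ⟨W', Φ, c, hW'W, hW'ne, hΦΦ, hΦn, hcont⟩ :=
    container (fun i => v i (ω i)) n (fun i => hv i (ω i)) W hWne β hβ _ hΦ0 h4
  have hw0 : (0 : ℝ) < W'.card := by exact_mod_cast card_pos.2 hW'ne
  have hΦ : 0 < Φ := lt_of_lt_of_le hΦ0 hΦΦ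
  have hn : 0 < n := by
    by_contra hc
    push Not at hc
    nlinarith
  have hCn : C * n ≤ Φ := by nlinarith [mul_pos hC0 hn]
  have hCw : C ≤ W'.card := by
    have h5 : C * n ≤ W'.card * n := by linarith
    exact le_of_mul_le_mul_right h5 hn
  have hs : 1024 * n * W'.card ≤ Φ * (ss C W'.card : ℕ) := by
    have h5 : 1024 * (W'.card : ℝ) / C ≤ (ss C W'.card : ℕ) := Nat.le_ceil _
    rw [div_le_iff₀ hC0] at h5
    have h6 : n * (1024 * (W'.card : ℝ)) ≤ n * ((ss C W'.card : ℕ) * C) :=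
      mul_le_mul_of_nonneg_left h5 hn.le
    have h7 : C * n * (ss C W'.card : ℕ) ≤ Φ * (ss C W'.card : ℕ) :=
      mul_le_mul_of_nonneg_right hCn (Nat.cast_nonneg _)
    linarith
  obtain ⟨f, hf, U, hUW, hUc, hne, hU⟩ := hcont _ hs
  have hsle : ((ss C W'.card : ℕ) : ℝ) ≤ (W'.card : ℝ) / 16 := by
    have h5 : ((ss C W'.card : ℕ) : ℝ) < 1024 * (W'.card : ℝ) / C + 1 :=
      Nat.ceil_lt_add_one (by positivity)
    have h6 : 1024 * (W'.card : ℝ) / C ≤ (W'.card : ℝ) / 32 := by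
      rw [div_le_div_iff₀ hC0 (by norm_num)]
      nlinarith
    linarith
  set R0 : Finset ι := (range (ss C W'.card)).image f with hR0
  have hR0c : (R0.card : ℝ) ≤ (ss C W'.card : ℕ) := by
    have : R0.card ≤ ss C W'.card := by
      refine card_image_le.trans ?_
      rw [card_range]
    exact_mod_cast this
  have hQc : mm W'.card ≤ (U \ R0).card := by
    have h5 : (U.card : ℝ) - R0.card ≤ ((U \ R0).card : ℝ) := by
      have := le_card_sdiff R0 U
      have h6 : U.card ≤ (U \ R0).card + R0.card := by omega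
      have h7 : (U.card : ℝ) ≤ ((U \ R0).card : ℝ) + R0.card := by exact_mod_cast h6
      linarith
    have h6 : (W'.card : ℝ) ≤ 16 * ((U \ R0).card : ℝ) := by linarith
    have h7 : W'.card ≤ 16 * (U \ R0).card := by exact_mod_cast h6
    unfold mm
    omega
  obtain ⟨Q, hQ, hQc'⟩ := exists_subset_card_eq hQc
  refine ⟨W'.card, mem_filter.2 ⟨mem_Icc.2 ⟨card_pos.2 hW'ne, card_le_univ _⟩, hCw⟩, ?_⟩
  refine ⟨fun l => (f l, c (f l)), Q, hQc', ?_, ?_⟩
  · intro l hl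
    have := (mem_sdiff.1 (hQ hl)).2
    apply this
    rw [hR0]
    exact mem_image.2 ⟨l, mem_range.2 l.2, rfl⟩
  · intro i hi
    have hY : Yv v (fun l : Fin (ss C W'.card) => (f l, c (f l))) ω =
        ∑ l ∈ range (ss C W'.card), phs (c (f l)) • v (f l) (ω (f l)) := by
      unfold Yv
      rw [← Fin.sum_univ_eq_sum_range (fun l => phs (c (f l)) • v (f l) (ω (f l)))]
    unfold Exc
    rw [hY]
    have hsq0 : 0 < Φ / (W'.card : ℝ) := div_pos hΦ hw0
    have hlam0 : 0 < 1 / 5 * Real.sqrt (Φ / W'.card) :=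
      mul_pos (by norm_num) (Real.sqrt_pos.2 hsq0)
    refine ⟨hne, 1 / 5 * Real.sqrt (Φ / W'.card), hlam0, ?_, hU i ((hQ.trans sdiff_subset) hi)⟩
    -- the level
    have hl2 : (1 / 5 * Real.sqrt (Φ / W'.card)) ^ 2 * W'.card = Φ / 25 := by
      rw [mul_pow, Real.sq_sqrt hsq0.le]
      have : (1 / 5 : ℝ) ^ 2 * (Φ / W'.card) * W'.card = 1 / 25 * (Φ / W'.card * W'.card) := by ring
      rw [this, div_mul_cancel₀ _ hw0.ne']
      ring
    set l0 : ℝ := 1 / 5 * Real.sqrt (Φ / W'.card) with hl0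
    have hWW : (W'.card : ℝ) ≤ W.card := by exact_mod_cast card_le_card hW'W
    have hkey : (lam / 8) ^ 2 * W.card ≤ l0 ^ 2 * W'.card := by
      rw [hl2]
      nlinarith [mul_pos (pow_pos hlam 2) hW0]
    have hle : lam / 8 ≤ l0 := by
      have h5 : (lam / 8) ^ 2 * W'.card ≤ l0 ^ 2 * W'.card :=
        (mul_le_mul_of_nonneg_left hWW (sq_nonneg _)).trans hkey
      have h6 : (lam / 8) ^ 2 ≤ l0 ^ 2 := le_of_mul_le_mul_right h5 hw0
      exact le_of_sq_le_sq h6 hlam0.le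
    have hM0 : (0 : ℝ) < Fintype.card ι := by
      exact_mod_cast lt_of_lt_of_le (card_pos.2 hWne) (card_le_univ W)
    have h5 := hanti (lam / 8) l0 (by positivity) hle
    have h6 : l0 ^ 2 * (48 * θ * Fintype.card ι * r l0) ≤ l0 ^ 2 * W'.card := by
      calc l0 ^ 2 * (48 * θ * Fintype.card ι * r l0) = 48 * θ * Fintype.card ι * (l0 ^ 2 * r l0) := by ring
        _ ≤ 48 * θ * Fintype.card ι * ((lam / 8) ^ 2 * r (lam / 8)) :=
            mul_le_mul_of_nonneg_left h5 (by positivity)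
        _ = (lam / 8) ^ 2 * (48 * θ * Fintype.card ι * r (lam / 8)) := by ring
        _ ≤ (lam / 8) ^ 2 * W.card := mul_le_mul_of_nonneg_left h2.le (sq_nonneg _)
        _ ≤ _ := hkey
    have h7 : 48 * θ * Fintype.card ι * r l0 ≤ W'.card :=
      le_of_mul_le_mul_left h6 (pow_pos hlam0 2)
    unfold tt
    rw [le_div_iff₀ (by positivity)]
    have h8 : (W'.card : ℝ) ≤ 16 * (mm W'.card : ℕ) := by
      have : W'.card ≤ 16 * mm W'.card := by unfold mm; omega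
      exact_mod_cast this
    have e : 16 * (r l0 * (3 * Fintype.card ι * θ)) = 48 * θ * Fintype.card ι * r l0 := by ring
    linarith

open Classical in
/-- **The sampling theorem.** -/
theorem sampling (v : ι → Fin L → E) (n : ℝ) (hv : ∀ i x, ‖v i x‖ ^ 2 ≤ n) (r : ℝ → ℝ)
    (hr : ∀ lam : ℝ, 0 < lam → ∀ (i : ι) (y : E), y ≠ 0 →
      ((univ.filter (fun x : Fin L => lam * ‖y‖ ≤ ‖(inner ℂ y (v i x) : ℂ)‖)).card : ℝ) ≤ r lam * L)
    (hanti : ∀ x y : ℝ, 0 < x → x ≤ y → y ^ 2 * r y ≤ x ^ 2 * r x)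
    (C θ δ : ℝ) (hC : 32800 ≤ C) (hθ : 0 < θ)
    (hpar : ∀ w : ℕ, C ≤ w → (4 * Fintype.card ι : ℝ) ^ ss C w * (θ⁻¹) ^ mm w * Fintype.card ι ≤ δ) :
    ((univ.filter (fun ω : ι → Fin L => ¬ Smpl (fun i => v i (ω i)) n r C θ)).card : ℝ) ≤
      δ * (L : ℝ) ^ Fintype.card ι := by
  have hL : (0 : ℝ) ≤ (L : ℝ) ^ Fintype.card ι := by positivity
  have hδ : 0 ≤ δ := le_trans (by positivity) (hpar ⌈C⌉₊ (Nat.le_ceil _))
  have hsub : (univ.filter (fun ω : ι → Fin L => ¬ Smpl (fun i => v i (ω i)) n r C θ)) ⊆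
      ((Icc 1 (Fintype.card ι)).filter (fun w : ℕ => C ≤ w)).biUnion (fun w =>
        univ.filter (fun ω : ι → Fin L =>
          Bad v r (ss C w) (mm w) (tt (Fintype.card ι) θ w) ω)) := by
    intro ω hω
    obtain ⟨w, hw, hb⟩ := not_smpl v n hv r hanti C θ hC hθ ω (mem_filter.1 hω).2
    exact mem_biUnion.2 ⟨w, hw, mem_filter.2 ⟨mem_univ _, hb⟩⟩
  have h1 : ((univ.filter (fun ω : ι → Fin L => ¬ Smpl (fun i => v i (ω i)) n r C θ)).card : ℝ) ≤
      ∑ w ∈ (Icc 1 (Fintype.card ι)).filter (fun w : ℕ => C ≤ w),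
        ((univ.filter (fun ω : ι → Fin L =>
          Bad v r (ss C w) (mm w) (tt (Fintype.card ι) θ w) ω)).card : ℝ) := by
    exact_mod_cast (card_le_card hsub).trans card_biUnion_le
  refine h1.trans ?_
  rcases Nat.eq_zero_or_pos (Fintype.card ι) with h0 | hpos
  · rw [h0]
    simp
    exact hδ
  have hM0 : (0 : ℝ) < Fintype.card ι := by exact_mod_cast hpos
  have h2 : ∀ w ∈ (Icc 1 (Fintype.card ι)).filter (fun w : ℕ => C ≤ w),
      ((univ.filter (fun ω : ι → Fin L =>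
          Bad v r (ss C w) (mm w) (tt (Fintype.card ι) θ w) ω)).card : ℝ) ≤
        δ / Fintype.card ι * (L : ℝ) ^ Fintype.card ι := by
    intro w hw
    have hb := bad_count v r hr (ss C w) (mm w) (tt (Fintype.card ι) θ w) θ
      (by unfold tt; positivity) hθ (by
        unfold tt
        apply le_of_eq
        field_simp)
    refine hb.trans (mul_le_mul_of_nonneg_right ?_ hL)
    rw [le_div_iff₀ hM0]
    exact hpar w (mem_filter.1 hw).2
  refine (sum_le_sum h2).trans ?_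
  rw [sum_const, nsmul_eq_mul]
  have h3 : ((((Icc 1 (Fintype.card ι)).filter (fun w : ℕ => C ≤ w)).card : ℕ) : ℝ) ≤
      Fintype.card ι := by
    have : ((Icc 1 (Fintype.card ι)).filter (fun w : ℕ => C ≤ w)).card ≤ Fintype.card ι := by
      refine (card_filter_le _ _).trans ?_
      rw [Nat.card_Icc]
      omega
    exact_mod_cast this
  calc ((((Icc 1 (Fintype.card ι)).filter (fun w : ℕ => C ≤ w)).card : ℕ) : ℝ) *
        (δ / Fintype.card ι * (L : ℝ) ^ Fintype.card ι)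
      ≤ Fintype.card ι * (δ / Fintype.card ι * (L : ℝ) ^ Fintype.card ι) :=
        mul_le_mul_of_nonneg_right h3 (mul_nonneg (div_nonneg hδ hM0.le) hL)
    _ = δ * (L : ℝ) ^ Fintype.card ι := by
        rw [← mul_assoc, mul_div_cancel₀ _ hM0.ne']

end Pool.Agent.Y959.Smp
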